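import Mathlib

open Set Filter Topology Real
open scoped RealInnerProductSpace ContDiff

noncomputable section

namespace Pool.Agent.Helper10.ARM

/-- Euclidean space. -/
abbrev E3 : Type := EuclideanSpace ℝ (Fin 3)

/-- `φ ↦ (r φ, z φ)` is a smooth closed convex plane curve, parametrised by the angle `φ` of its
outward normal `(cos φ, sin φ)`, with radius of curvature `R φ > 0`, and symmetric with respect to
the axis `r = 0`. -/
structure IsMeridian (r z R : ℝ → ℝ) : Prop where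
  smooth : ContDiff ℝ ∞ R
  pos : ∀ φ, 0 < R φ
  dr : ∀ φ, HasDerivAt r (-(R φ * sin φ)) φ
  dz : ∀ φ, HasDerivAt z (R φ * cos φ) φ
  perr : ∀ φ, r (φ + 2 * π) = r φ
  perz : ∀ φ, z (φ + 2 * π) = z φ
  symr : ∀ φ, r (π - φ) = -r φ
  symz : ∀ φ, z (π - φ) = z φ

/-- The point of the surface of revolution with meridian angle `φ` and longitude `θ`. -/
def pos (r z : ℝ → ℝ) (φ θ : ℝ) : E3 := !₂[r φ * cos θ, r φ * sin θ, z φ]

/-- The surface of revolution: the boundary of a convex body of revolution. -/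
def surf (r z : ℝ → ℝ) : Set E3 := {p | ∃ φ θ, p = pos r z φ θ}

/-- The width in every direction (the distance of the two supporting planes) is `w`. -/
def HasWidth (S : Set E3) (w : ℝ) : Prop :=
  ∀ u : E3, ‖u‖ = 1 → sSup ((fun p => ⟪p, u⟫) '' S) - sInf ((fun p => ⟪p, u⟫) '' S) = w

/-- The tangent space of `S` at `x`: velocities of curves in `S` through `x`. -/
def tangent (S : Set E3) (x : E3) : Set E3 :=
  {v | ∃ c : ℝ → E3, (∀ s, c s ∈ S) ∧ c 0 = x ∧ HasDerivAt c v 0}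

/-- Unit speed geodesics of the surface `S`: the acceleration is orthogonal to `S`. -/
def IsGeodesic (S : Set E3) (c : ℝ → E3) : Prop :=
  ContDiff ℝ 2 c ∧ (∀ t, c t ∈ S) ∧ (∀ t, ‖deriv c t‖ = 1) ∧
    ∀ t, ∀ v ∈ tangent S (c t), ⟪deriv (deriv c) t, v⟫ = 0

/-- All geodesics of `S` are closed (periodic). -/
def AllClosed (S : Set E3) : Prop :=
  ∀ c : ℝ → E3, IsGeodesic S c → ∃ T : ℝ, 0 < T ∧ ∀ t, c (t + T) = c t

/-- The outward unit normal. -/
def nrm (φ θ : ℝ) : E3 := !₂[cos φ * cos θ, cos φ * sin θ, sin φ]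

/-- Uniformisation of the meridian: `Φ` is the angle as a function of `x = ±√(m² - r²)`, and
`Q x = x / sin (Φ x)`. -/
structure IsUnif (r R : ℝ → ℝ) (m : ℝ) (Φ Q : ℝ → ℝ) : Prop where
  mem : ∀ x ∈ Ioo (-m) m, Φ x ∈ Ioo (-(π / 2)) (π / 2)
  rsq : ∀ x ∈ Ioo (-m) m, r (Φ x) ^ 2 = m ^ 2 - x ^ 2
  sinQ : ∀ x ∈ Ioo (-m) m, sin (Φ x) * Q x = x
  Qpos : ∀ x ∈ Icc (-m) m, 0 < Q x
  Qcont : ContinuousOn Q (Icc (-m) m)
  Qdiff : ContDiffOn ℝ 1 Q (Ioo (-m) m)
  Φder : ∀ x ∈ Ioo (-m) m, HasDerivAt Φ (Q x / (r (Φ x) * R (Φ x))) x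

/-- Twice the advance of longitude between two passages, for the Clairaut constant `a`. -/
def adv (Q : ℝ → ℝ) (m a : ℝ) : ℝ :=
  ∫ u in (0 : ℝ)..(2 * π), a * Q (√(m ^ 2 - a ^ 2) * cos u) /
    (m ^ 2 - (m ^ 2 - a ^ 2) * cos u ^ 2)


end Pool.Agent.Helper10.ARM
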