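import Mathlib
import Pool.Agent.Helper10.ARM.Defs

open Set Filter Topology Real
open scoped RealInnerProductSpace ContDiff

noncomputable section

namespace Pool.Agent.Helper10.ARM


end Pool.Agent.Helper10.ARM
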