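import Mathlib
import Pool.Agent.Helper10.ARM.Base

open Set Filter Topology Real
open scoped RealInnerProductSpace ContDiff

noncomputable section

namespace Pool.Agent.Helper10.ARM

namespace J_adv_const


-- TARGET: prove this (put auxiliary lemmas between the ASSUMED END line and the theorem)

theorem adv_const {Q : ℝ → ℝ} {m : ℝ} (hm : 0 < m) (hQ : ContinuousOn Q (Icc (-m) m))
    (h : ∀ a ∈ Ioo 0 m, ∃ q : ℚ, adv Q m a = 2 * π * q) :
    ∃ C, ∀ a ∈ Ioo 0 m, adv Q m a = C := by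
  have hQe : Continuous (fun x : ℝ => Q (max (-m) (min m x))) := by
    apply hQ.comp_continuous (by fun_prop)
    intro x
    exact ⟨le_max_left _ _, max_le (by linarith) (min_le_left _ _)⟩
  have hcont : ContinuousOn (adv Q m) (Ioo 0 m) := by
    intro a0 ha0
    apply ContinuousAt.continuousWithinAt
    have hb : 0 < a0 / 2 := by linarith [ha0.1]
    have hF : Continuous (Function.uncurry (fun a u : ℝ =>
        a * Q (max (-m) (min m (√(m ^ 2 - a ^ 2) * cos u))) /
          max ((a0 / 2) ^ 2) (m ^ 2 - (m ^ 2 - a ^ 2) * cos u ^ 2))) := by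
      show Continuous (fun p : ℝ × ℝ =>
        p.1 * Q (max (-m) (min m (√(m ^ 2 - p.1 ^ 2) * cos p.2))) /
          max ((a0 / 2) ^ 2) (m ^ 2 - (m ^ 2 - p.1 ^ 2) * cos p.2 ^ 2))
      apply Continuous.div
      · apply continuous_fst.mul
        exact hQe.comp (g := fun x : ℝ => Q (max (-m) (min m x)))
          (f := fun p : ℝ × ℝ => √(m ^ 2 - p.1 ^ 2) * cos p.2) (by fun_prop)
      · fun_prop
      · intro p
        exact (lt_max_of_lt_left (by positivity)).ne'
    have hG := intervalIntegral.continuous_parametric_intervalIntegral_of_continuous'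
      (μ := MeasureTheory.volume) hF 0 (2 * π)
    refine hG.continuousAt.congr ?_
    filter_upwards [Ioo_mem_nhds (show a0 / 2 < a0 by linarith) ha0.2] with a ha
    have ha1 : 0 < a := hb.trans ha.1
    have hnn : 0 ≤ m ^ 2 - a ^ 2 := by nlinarith [ha.2]
    have hsm : √(m ^ 2 - a ^ 2) ≤ m := by
      rw [show m = √(m ^ 2) from (Real.sqrt_sq hm.le).symm]
      apply Real.sqrt_le_sqrt
      rw [Real.sqrt_sq hm.le]
      nlinarith
    unfold adv
    apply intervalIntegral.integral_congr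
    intro u _
    simp only []
    have hs0 : 0 ≤ √(m ^ 2 - a ^ 2) := Real.sqrt_nonneg _
    have hc1 := neg_one_le_cos u
    have hc2 := cos_le_one u
    have e1 : min m (√(m ^ 2 - a ^ 2) * cos u) = √(m ^ 2 - a ^ 2) * cos u :=
      min_eq_right (by nlinarith)
    have e2 : max (-m) (√(m ^ 2 - a ^ 2) * cos u) = √(m ^ 2 - a ^ 2) * cos u :=
      max_eq_right (by nlinarith)
    have hcs : cos u ^ 2 ≤ 1 := cos_sq_le_one u
    have e3 : max ((a0 / 2) ^ 2) (m ^ 2 - (m ^ 2 - a ^ 2) * cos u ^ 2)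
        = m ^ 2 - (m ^ 2 - a ^ 2) * cos u ^ 2 := by
      apply max_eq_right
      have : (a0 / 2) ^ 2 ≤ a ^ 2 := by nlinarith [ha.1]
      nlinarith
    rw [e1, e2, e3]
  have hpre : IsPreconnected (adv Q m '' Ioo 0 m) := isPreconnected_Ioo.image _ hcont
  have hcount : (adv Q m '' Ioo 0 m).Countable := by
    apply (Set.countable_range (fun q : ℚ => 2 * π * (q : ℝ))).mono
    rintro _ ⟨a, ha, rfl⟩
    obtain ⟨q, hq⟩ := h a ha
    exact ⟨q, hq.symm⟩
  have key : ∀ x ∈ adv Q m '' Ioo 0 m, ∀ y ∈ adv Q m '' Ioo 0 m, ¬ x < y := by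
    intro x hx y hy hxy
    have hsub : Icc x y ⊆ adv Q m '' Ioo 0 m := hpre.Icc_subset hx hy
    obtain ⟨z, hz1, hz2⟩ := (hcount.dense_compl ℝ).exists_mem_open isOpen_Ioo
      (nonempty_Ioo.mpr hxy)
    exact hz1 (hsub (Ioo_subset_Icc_self hz2))
  refine ⟨adv Q m (m / 2), fun a ha => ?_⟩
  have hm2 : m / 2 ∈ Ioo 0 m := ⟨by linarith, by linarith⟩
  rcases lt_trichotomy (adv Q m a) (adv Q m (m / 2)) with hlt | heq | hgt
  · exact absurd hlt (key _ ⟨a, ha, rfl⟩ _ ⟨_, hm2, rfl⟩)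
  · exact heq
  · exact absurd hgt (key _ ⟨_, hm2, rfl⟩ _ ⟨a, ha, rfl⟩)


end J_adv_const

alias adv_const := J_adv_const.adv_const

end Pool.Agent.Helper10.ARM
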