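import Mathlib
import Pool.Agent.Helper10.ARM.Base

open Set Filter Topology Real
open scoped RealInnerProductSpace ContDiff

noncomputable section

namespace Pool.Agent.Helper10.ARM

namespace J_final_ineq


-- TARGET: prove this (put auxiliary lemmas between the ASSUMED END line and the theorem)

theorem final_ineq {r z R : ℝ → ℝ} (h : IsMeridian r z R) {m : ℝ} (hm : 0 < m)
    (h1 : ∀ φ, r φ + r (-φ) = 2 * m * cos φ) (h2 : ∀ φ, R φ + R (-φ) = 2 * m)
    (h3 : ∫ φ in (-(π / 2))..(π / 2), r φ * R φ = 2 * m ^ 2) (φ : ℝ) : R φ = m := by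
  have hRc : Continuous R := h.smooth.continuous
  have hrc : Continuous r := continuous_iff_continuousAt.2 fun φ => (h.dr φ).continuousAt
  -- symmetry and periodicity of R
  have hRsym : ∀ φ, R (π - φ) = R φ := by
    intro φ
    have e1 : HasDerivAt (fun x => r (π - x)) (R (π - φ) * sin φ) φ := by
      have h1 := (h.dr (π - φ)).comp_const_sub π φ
      rw [Real.sin_pi_sub] at h1
      refine h1.congr_deriv (by ring)
    have e2 : HasDerivAt (fun x => r (π - x)) (R φ * sin φ) φ := by
      have h1 := (h.dr φ).neg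
      have h2 : (fun x => r (π - x)) = fun x => -r x := funext h.symr
      rw [h2]
      refine h1.congr_deriv (by ring)
    have e3 : HasDerivAt (fun x => z (π - x)) (R (π - φ) * cos φ) φ := by
      have h1 := (h.dz (π - φ)).comp_const_sub π φ
      rw [Real.cos_pi_sub] at h1
      refine h1.congr_deriv (by ring)
    have e4 : HasDerivAt (fun x => z (π - x)) (R φ * cos φ) φ := by
      have h2 : (fun x => z (π - x)) = fun x => z x := funext h.symz
      rw [h2]
      exact h.dz φ
    have a1 := e1.unique e2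
    have a2 := e3.unique e4
    have a3 := Real.sin_sq_add_cos_sq φ
    linear_combination (R φ - R (π - φ)) * a3 + sin φ * a1 + cos φ * a2
  have hRper : Function.Periodic R (2 * π) := by
    intro φ
    have e1 : HasDerivAt (fun x => r (x + 2 * π)) (-(R (φ + 2 * π) * sin φ)) φ := by
      have h1 := (h.dr (φ + 2 * π)).comp_add_const φ (2 * π)
      rw [Real.sin_add_two_pi] at h1
      exact h1
    have e2 : HasDerivAt (fun x => r (x + 2 * π)) (-(R φ * sin φ)) φ := by
      have h2 : (fun x => r (x + 2 * π)) = fun x => r x := funext h.perr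
      rw [h2]
      exact h.dr φ
    have e3 : HasDerivAt (fun x => z (x + 2 * π)) (R (φ + 2 * π) * cos φ) φ := by
      have h1 := (h.dz (φ + 2 * π)).comp_add_const φ (2 * π)
      rw [Real.cos_add_two_pi] at h1
      exact h1
    have e4 : HasDerivAt (fun x => z (x + 2 * π)) (R φ * cos φ) φ := by
      have h2 : (fun x => z (x + 2 * π)) = fun x => z x := funext h.perz
      rw [h2]
      exact h.dz φ
    have a1 := e1.unique e2
    have a2 := e3.unique e4
    have a3 := Real.sin_sq_add_cos_sq φ
    linear_combination (R φ - R (φ + 2 * π)) * a3 - sin φ * a1 + cos φ * a2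
  -- the odd functions
  obtain ⟨G, hGdef⟩ : ∃ G : ℝ → ℝ, G = fun φ => r φ - m * cos φ := ⟨_, rfl⟩
  obtain ⟨g, hgdef⟩ : ∃ g : ℝ → ℝ, g = fun φ => R φ - m := ⟨_, rfl⟩
  have hGc : Continuous G := by rw [hGdef]; fun_prop
  have hgc : Continuous g := by rw [hgdef]; fun_prop
  have hGodd : ∀ φ, G (-φ) = -G φ := by
    intro φ
    have := h1 φ
    rw [hGdef]
    simp only [Real.cos_neg]
    linarith
  have hgodd : ∀ φ, g (-φ) = -g φ := by
    intro φ
    have := h2 φ
    rw [hgdef]
    simp only
    linarith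
  have hGd : ∀ φ, HasDerivAt G (-(g φ * sin φ)) φ := by
    intro φ
    rw [hGdef, hgdef]
    refine ((h.dr φ).sub ((Real.hasDerivAt_cos φ).const_mul m)).congr_deriv ?_
    ring
  have hG0 : G 0 = 0 := by
    have := hGodd 0
    rw [neg_zero] at this
    linarith
  have hrpi : r (π / 2) = 0 := by
    have := h.symr (π / 2)
    rw [show π - π / 2 = π / 2 by ring] at this
    linarith
  have hGpi : G (π / 2) = 0 := by
    rw [hGdef]
    simp [hrpi]
  -- integrals of odd functions
  have hodd : ∀ f : ℝ → ℝ, (∀ x, f (-x) = -f x) → ∫ x in (-(π / 2))..(π / 2), f x = 0 := by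
    intro f hf
    have e1 : ∫ x in (-(π / 2))..(π / 2), f (-x) = ∫ x in (-(π / 2))..(π / 2), f x := by
      rw [intervalIntegral.integral_comp_neg, neg_neg]
    have e2 : ∫ x in (-(π / 2))..(π / 2), f (-x) = -∫ x in (-(π / 2))..(π / 2), f x := by
      rw [← intervalIntegral.integral_neg]
      exact intervalIntegral.integral_congr fun x _ => hf x
    linarith
  have hint : ∀ f : ℝ → ℝ, Continuous f → ∀ a b : ℝ, IntervalIntegrable f MeasureTheory.volume a b :=
    fun f hf a b => hf.intervalIntegrable a b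
  have hGg : ∫ x in (-(π / 2))..(π / 2), G x * g x = 0 := by
    have e1 : ∫ x in (-(π / 2))..(π / 2), r x * R x =
        ∫ x in (-(π / 2))..(π / 2), ((m ^ 2 * cos x + (m * (cos x * g x) + m * G x)) + G x * g x) := by
      refine intervalIntegral.integral_congr fun x _ => ?_
      rw [hGdef, hgdef]
      simp only
      ring
    have c1 : Continuous fun x => m * (cos x * g x) + m * G x := by fun_prop
    have c2 : Continuous fun x => m ^ 2 * cos x := by fun_prop
    have c3 : Continuous fun x => G x * g x := hGc.mul hgc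
    have c12 : Continuous fun x => m ^ 2 * cos x + (m * (cos x * g x) + m * G x) := by fun_prop
    rw [intervalIntegral.integral_add (c12.intervalIntegrable _ _) (c3.intervalIntegrable _ _),
      intervalIntegral.integral_add (c2.intervalIntegrable _ _) (c1.intervalIntegrable _ _),
      hodd (fun x => m * (cos x * g x) + m * G x) (fun x => by
        simp only [Real.cos_neg, hgodd, hGodd]; ring), intervalIntegral.integral_const_mul,
      integral_cos] at e1
    rw [h3] at e1
    simp only [Real.sin_neg, Real.sin_pi_div_two] at e1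
    linarith
  have hGg2 : ∫ x in (0 : ℝ)..(π / 2), G x * g x = 0 := by
    have c3 : Continuous fun x => G x * g x := hGc.mul hgc
    have e1 := intervalIntegral.integral_add_adjacent_intervals (c3.intervalIntegrable (-(π / 2)) 0)
      (c3.intervalIntegrable (μ := MeasureTheory.volume) 0 (π / 2))
    have e2 : ∫ x in (-(π / 2))..0, G x * g x = ∫ x in (0 : ℝ)..(π / 2), G x * g x := by
      have e3 := intervalIntegral.integral_comp_neg (a := 0) (b := π / 2) (fun x => G x * g x)
      rw [neg_zero] at e3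
      rw [← e3]
      refine intervalIntegral.integral_congr fun x _ => ?_
      simp only [hGodd, hgodd]
      ring
    rw [hGg, e2] at e1
    linarith
  -- the bound near zero
  obtain ⟨C, hC⟩ : ∃ C : ℝ, ∀ x ∈ Icc (0 : ℝ) (π / 2), |g x| ≤ C := by
    obtain ⟨C, hC⟩ := isCompact_Icc.exists_bound_of_continuousOn (s := Icc (0 : ℝ) (π / 2))
      hgc.continuousOn
    exact ⟨C, fun x hx => hC x hx⟩
  have hC0 : 0 ≤ C := le_trans (abs_nonneg _) (hC 0 ⟨le_rfl, by positivity⟩)
  have hGb : ∀ x ∈ Icc (0 : ℝ) (π / 2), |G x| ≤ C * x := by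
    intro x hx
    have e1 := Convex.norm_image_sub_le_of_norm_hasDerivWithin_le (f := G)
      (f' := fun φ => -(g φ * sin φ)) (C := C) (s := Icc (0 : ℝ) (π / 2)) (x := 0) (y := x)
      (fun y _ => (hGd y).hasDerivWithinAt) (fun y hy => by
        rw [norm_neg, norm_mul]
        have b1 : ‖g y‖ ≤ C := hC y hy
        have b2 : ‖sin y‖ ≤ 1 := Real.abs_sin_le_one y
        nlinarith [norm_nonneg (g y), norm_nonneg (sin y)]) (convex_Icc _ _)
      ⟨le_rfl, by positivity⟩ hx
    rw [hG0, sub_zero, sub_zero, Real.norm_eq_abs, Real.norm_eq_abs, abs_of_nonneg hx.1] at e1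
    exact e1
  obtain ⟨H, hHdef⟩ : ∃ H : ℝ → ℝ, H = fun φ => G φ ^ 2 / (2 * sin φ) +
      ∫ x in (0 : ℝ)..φ, G x * g x := ⟨_, rfl⟩
  have c3 : Continuous fun x => G x * g x := hGc.mul hgc
  have hFc : Continuous fun φ => ∫ x in (0 : ℝ)..φ, G x * g x :=
    continuous_iff_continuousAt.2 fun φ =>
      (intervalIntegral.integral_hasDerivAt_right (c3.intervalIntegrable _ _)
        c3.stronglyMeasurable.stronglyMeasurableAtFilter c3.continuousAt).continuousAt
  have hH0 : H 0 = 0 := by rw [hHdef]; simp
  have hHpi : H (π / 2) = 0 := by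
    rw [hHdef]
    simp only
    rw [hGpi, hGg2]
    simp
  have hHd : ∀ φ ∈ Ioo (0 : ℝ) (π / 2), HasDerivAt H (-(G φ ^ 2 * cos φ / (2 * sin φ ^ 2))) φ := by
    intro φ hφ
    have hs : 0 < sin φ := Real.sin_pos_of_pos_of_lt_pi hφ.1 (by linarith [hφ.2, Real.pi_pos])
    have d1 := ((hGd φ).pow 2).div ((Real.hasDerivAt_sin φ).const_mul 2) (by positivity)
    have d2 := intervalIntegral.integral_hasDerivAt_right (a := 0) (b := φ)
      (c3.intervalIntegrable _ _) c3.stronglyMeasurable.stronglyMeasurableAtFilter c3.continuousAt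
    rw [hHdef]
    refine (d1.add d2).congr_deriv ?_
    have hs' : sin φ ≠ 0 := hs.ne'
    simp only [Pi.pow_apply]
    field_simp
    ring
  have hHc : ContinuousOn H (Icc (0 : ℝ) (π / 2)) := by
    intro φ hφ
    rcases eq_or_lt_of_le hφ.1 with h0 | h0
    · subst h0
      have t1 : Tendsto (fun φ : ℝ => G φ ^ 2 / (2 * sin φ)) (𝓝[Icc (0 : ℝ) (π / 2)] 0) (𝓝 0) := by
        have t2 : Tendsto (fun x : ℝ => C ^ 2 * π / 4 * x) (𝓝[Icc (0 : ℝ) (π / 2)] 0) (𝓝 0) := by
          have : Continuous fun x : ℝ => C ^ 2 * π / 4 * x := by fun_prop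
          have h := (this.tendsto 0)
          rw [mul_zero] at h
          exact h.mono_left nhdsWithin_le_nhds
        refine squeeze_zero' ?_ ?_ t2
        · filter_upwards [self_mem_nhdsWithin] with x hx
          have hs : 0 ≤ sin x := Real.sin_nonneg_of_nonneg_of_le_pi hx.1 (by linarith [hx.2, Real.pi_pos])
          positivity
        · filter_upwards [self_mem_nhdsWithin] with x hx
          rcases eq_or_lt_of_le hx.1 with hx0 | hx0
          · rw [← hx0]; simp
          · have hs : 2 / π * x ≤ sin x := Real.mul_le_sin hx.1 hx.2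
            have hs0 : 0 < 2 / π * x := by positivity
            have hb := hGb x hx
            have hb2 : G x ^ 2 ≤ (C * x) ^ 2 := by
              rw [← sq_abs]
              exact pow_le_pow_left₀ (abs_nonneg _) hb 2
            calc G x ^ 2 / (2 * sin x) ≤ (C * x) ^ 2 / (2 * (2 / π * x)) := by
                  apply div_le_div₀ (by positivity) hb2 (by positivity)
                  linarith
              _ = C ^ 2 * π / 4 * x := by
                  field_simp
                  ring
      have t3 : Tendsto (fun φ : ℝ => ∫ x in (0 : ℝ)..φ, G x * g x) (𝓝[Icc (0 : ℝ) (π / 2)] 0)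
          (𝓝 0) := by
        have h := (hFc.tendsto 0)
        rw [intervalIntegral.integral_same] at h
        exact h.mono_left nhdsWithin_le_nhds
      have t4 := t1.add t3
      rw [add_zero] at t4
      change Tendsto H _ (𝓝 (H 0))
      rw [hH0, hHdef]
      exact t4
    · have hs : 0 < sin φ := Real.sin_pos_of_pos_of_lt_pi h0 (by linarith [hφ.2, Real.pi_pos])
      rw [hHdef]
      refine ContinuousAt.continuousWithinAt (ContinuousAt.add ?_ hFc.continuousAt)
      exact (hGc.continuousAt.pow 2).div (continuousAt_const.mul Real.continuous_sin.continuousAt)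
        (by positivity)
  have hanti : AntitoneOn H (Icc (0 : ℝ) (π / 2)) := by
    apply antitoneOn_of_deriv_nonpos (convex_Icc _ _) hHc
    · rw [interior_Icc]
      exact fun φ hφ => (hHd φ hφ).differentiableAt.differentiableWithinAt
    · rw [interior_Icc]
      intro φ hφ
      rw [(hHd φ hφ).deriv]
      have hc : 0 ≤ cos φ := Real.cos_nonneg_of_neg_pi_div_two_le_of_le (by linarith [hφ.1, Real.pi_pos])
        hφ.2.le
      rw [neg_nonpos]
      positivity
  have hHz : ∀ φ ∈ Icc (0 : ℝ) (π / 2), H φ = 0 := by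
    intro φ hφ
    have b1 := hanti ⟨le_rfl, by positivity⟩ hφ hφ.1
    have b2 := hanti hφ ⟨by positivity, le_rfl⟩ hφ.2
    rw [hH0] at b1
    rw [hHpi] at b2
    exact le_antisymm b1 b2
  have hGz : ∀ φ ∈ Ioo (0 : ℝ) (π / 2), G φ = 0 := by
    intro φ hφ
    have e1 : H =ᶠ[𝓝 φ] fun _ => 0 := by
      filter_upwards [isOpen_Ioo.mem_nhds hφ] with x hx
      exact hHz x ⟨hx.1.le, hx.2.le⟩
    have e2 : HasDerivAt H 0 φ := (hasDerivAt_const φ (0 : ℝ)).congr_of_eventuallyEq e1
    have e3 := (hHd φ hφ).unique e2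
    have hs : 0 < sin φ := Real.sin_pos_of_pos_of_lt_pi hφ.1 (by linarith [hφ.2, Real.pi_pos])
    have hc : 0 < cos φ := Real.cos_pos_of_mem_Ioo ⟨by linarith [hφ.1, Real.pi_pos], hφ.2⟩
    rw [neg_eq_zero, div_eq_zero_iff] at e3
    rcases e3 with e3 | e3
    · have := (mul_eq_zero.1 e3).resolve_right hc.ne'
      exact pow_eq_zero_iff (two_ne_zero) |>.1 this
    · exfalso
      have : 0 < 2 * sin φ ^ 2 := by positivity
      linarith
  have hgz : ∀ φ ∈ Ioo (0 : ℝ) (π / 2), g φ = 0 := by
    intro φ hφ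
    have e1 : G =ᶠ[𝓝 φ] fun _ => 0 := by
      filter_upwards [isOpen_Ioo.mem_nhds hφ] with x hx
      exact hGz x hx
    have e2 : HasDerivAt G 0 φ := (hasDerivAt_const φ (0 : ℝ)).congr_of_eventuallyEq e1
    have e3 := (hGd φ).unique e2
    have hs : 0 < sin φ := Real.sin_pos_of_pos_of_lt_pi hφ.1 (by linarith [hφ.2, Real.pi_pos])
    rw [neg_eq_zero] at e3
    exact (mul_eq_zero.1 e3).resolve_right hs.ne'
  have hgz2 : ∀ φ ∈ Icc (0 : ℝ) (π / 2), g φ = 0 := by
    have hcl : closure (Ioo (0 : ℝ) (π / 2)) = Icc 0 (π / 2) :=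
      closure_Ioo (by positivity)
    intro φ hφ
    rw [← hcl] at hφ
    have hclosed : IsClosed {x | g x = 0} := isClosed_eq hgc continuous_const
    exact hclosed.closure_subset_iff.2 hgz hφ
  have hRm : ∀ φ ∈ Icc (-(π / 2)) (π / 2), R φ = m := by
    intro φ hφ
    have hgφ : g φ = 0 := by
      rcases le_total 0 φ with h0 | h0
      · exact hgz2 φ ⟨h0, hφ.2⟩
      · have := hgz2 (-φ) ⟨by linarith, by linarith [hφ.1]⟩
        rw [hgodd] at this
        linarith
    rw [hgdef] at hgφ
    simp only at hgφ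
    linarith
  obtain ⟨y, hy, hφy⟩ := hRper.exists_mem_Ico (by positivity) φ (-(π / 2))
  rw [hφy]
  rcases le_total y (π / 2) with h0 | h0
  · exact hRm y ⟨hy.1, h0⟩
  · rw [← hRsym y]
    exact hRm _ ⟨by linarith [hy.2], by linarith⟩


end J_final_ineq

alias final_ineq := J_final_ineq.final_ineq

end Pool.Agent.Helper10.ARM
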