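import Mathlib
import Pool.Agent.Helper10.ARM.Base

open Set Filter Topology Real
open scoped RealInnerProductSpace ContDiff

noncomputable section

namespace Pool.Agent.Helper10.ARM

namespace J_g_supp


-- TARGET: prove this (put auxiliary lemmas between the ASSUMED END line and the theorem)

theorem g_supp_der {r z R : ℝ → ℝ} (h : IsMeridian r z R) (φ ψ : ℝ) :
    HasDerivAt (fun ψ => r ψ * cos φ + z ψ * sin φ) (R ψ * sin (φ - ψ)) ψ := by
  have h1 := ((h.dr ψ).mul_const (cos φ)).add ((h.dz ψ).mul_const (sin φ))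
  have h2 : R ψ * sin (φ - ψ) = -(R ψ * sin ψ) * cos φ + R ψ * cos ψ * sin φ := by
    rw [Real.sin_sub]; ring
  rw [h2]
  exact h1

theorem g_supp {r z R : ℝ → ℝ} (h : IsMeridian r z R) (φ ψ : ℝ) :
    r ψ * cos φ + z ψ * sin φ ≤ r φ * cos φ + z φ * sin φ := by
  obtain ⟨F, hF⟩ : ∃ F : ℝ → ℝ, F = fun ψ => r ψ * cos φ + z ψ * sin φ := ⟨_, rfl⟩
  have hd : ∀ x, HasDerivAt F (R x * sin (φ - x)) x := by
    intro x; rw [hF]; exact g_supp_der h φ x
  have hdiff : Differentiable ℝ F := fun x => (hd x).differentiableAt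
  have hper : Function.Periodic F (2 * π) := by
    intro x
    rw [hF]
    show r (x + 2 * π) * cos φ + z (x + 2 * π) * sin φ = r x * cos φ + z x * sin φ
    rw [h.perr, h.perz]
  have hinc : MonotoneOn F (Icc (φ - π) φ) := by
    refine monotoneOn_of_deriv_nonneg (convex_Icc _ _) hdiff.continuous.continuousOn
      hdiff.differentiableOn ?_
    intro x hx
    rw [interior_Icc] at hx
    rw [(hd x).deriv]
    exact mul_nonneg (h.pos x).le (sin_nonneg_of_nonneg_of_le_pi (by linarith [hx.2]) (by linarith [hx.1]))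
  have hdec : AntitoneOn F (Icc φ (φ + π)) := by
    refine antitoneOn_of_deriv_nonpos (convex_Icc _ _) hdiff.continuous.continuousOn
      hdiff.differentiableOn ?_
    intro x hx
    rw [interior_Icc] at hx
    rw [(hd x).deriv]
    exact mul_nonpos_of_nonneg_of_nonpos (h.pos x).le
      (sin_nonpos_of_nonpos_of_neg_pi_le (by linarith [hx.1]) (by linarith [hx.2]))
  have hpi := Real.pi_pos
  obtain ⟨y, hy, hFy⟩ := hper.exists_mem_Ico (by positivity) ψ (φ - π)
  have hmain : F y ≤ F φ := by
    rcases le_total y φ with h1 | h1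
    · exact hinc ⟨hy.1, h1⟩ ⟨by linarith, le_refl _⟩ h1
    · exact hdec ⟨le_refl _, by linarith⟩ ⟨h1, by linarith [hy.2]⟩ h1
  have : F ψ ≤ F φ := by rw [hFy]; exact hmain
  rw [hF] at this
  exact this


end J_g_supp

alias g_supp := J_g_supp.g_supp

end Pool.Agent.Helper10.ARM
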