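import Mathlib
import Pool.Agent.Helper10.ARM.Base
import Pool.Agent.Helper10.ARM.J_g_supp

open Set Filter Topology Real
open scoped RealInnerProductSpace ContDiff

noncomputable section

namespace Pool.Agent.Helper10.ARM

namespace J_g_surf


-- TARGET: prove this (put auxiliary lemmas between the ASSUMED END line and the theorem)

theorem inner_pos_nrm (r z : ℝ → ℝ) (φ θ ψ η : ℝ) :
    ⟪pos r z ψ η, nrm φ θ⟫ = r ψ * cos φ * cos (η - θ) + z ψ * sin φ := by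
  simp only [pos, nrm, PiLp.inner_apply, Fin.sum_univ_three]
  simp
  rw [cos_sub]
  ring

theorem inner_le {r z R : ℝ → ℝ} (h : IsMeridian r z R) {φ : ℝ} (hφ : 0 ≤ cos φ) (θ : ℝ) :
    ∀ p ∈ surf r z, ⟪p, nrm φ θ⟫ ≤ ⟪pos r z φ θ, nrm φ θ⟫ := by
  rintro p ⟨ψ, η, rfl⟩
  rw [inner_pos_nrm, inner_pos_nrm, sub_self, cos_zero, mul_one]
  have h1 := neg_one_le_cos (η - θ)
  have h2 := cos_le_one (η - θ)
  rcases le_total 0 (r ψ) with h0 | h0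
  · have h3 := g_supp h φ ψ
    have h4 : r ψ * cos φ * cos (η - θ) ≤ r ψ * cos φ * 1 :=
      mul_le_mul_of_nonneg_left h2 (mul_nonneg h0 hφ)
    linarith
  · have h3 := g_supp h φ (π - ψ)
    rw [h.symr, h.symz] at h3
    have h5 : 0 ≤ -r ψ * cos φ := mul_nonneg (by linarith) hφ
    have h4 : (-r ψ * cos φ) * (-cos (η - θ)) ≤ (-r ψ * cos φ) * 1 :=
      mul_le_mul_of_nonneg_left (by linarith) h5
    nlinarith

theorem g_surf {r z R : ℝ → ℝ} (h : IsMeridian r z R) {φ : ℝ} (hφ : 0 ≤ cos φ) (θ : ℝ) :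
    (∀ p ∈ surf r z, ⟪p, nrm φ θ⟫ ≤ ⟪pos r z φ θ, nrm φ θ⟫) ∧
      ∀ v ∈ tangent (surf r z) (pos r z φ θ), ⟪nrm φ θ, v⟫ = 0 := by
  refine ⟨inner_le h hφ θ, ?_⟩
  rintro v ⟨c, hc, hc0, hd⟩
  have hm : IsLocalMax (fun s => ⟪c s, nrm φ θ⟫) 0 := by
    refine Filter.Eventually.of_forall fun s => ?_
    show ⟪c s, nrm φ θ⟫ ≤ ⟪c 0, nrm φ θ⟫
    rw [hc0]
    exact inner_le h hφ θ _ (hc s)
  have hd2 : HasDerivAt (fun s => ⟪c s, nrm φ θ⟫) (⟪c 0, (0 : E3)⟫ + ⟪v, nrm φ θ⟫) 0 :=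
    hd.inner ℝ (hasDerivAt_const (0 : ℝ) (nrm φ θ))
  have h3 := hm.hasDerivAt_eq_zero hd2
  rw [inner_zero_right, zero_add] at h3
  rw [real_inner_comm]
  exact h3


end J_g_surf

alias g_surf := J_g_surf.g_surf

end Pool.Agent.Helper10.ARM
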