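import Mathlib
import Pool.Agent.Helper10.ARM.Base
import Pool.Agent.Helper10.ARM.J_g_surf

open Set Filter Topology Real
open scoped RealInnerProductSpace ContDiff

noncomputable section

namespace Pool.Agent.Helper10.ARM

namespace J_g_width


-- TARGET: prove this (put auxiliary lemmas between the ASSUMED END line and the theorem)

theorem g_width_inner (r z : ℝ → ℝ) (φ θ a b : ℝ) : ⟪pos r z φ θ, nrm a b⟫ =
    r φ * cos θ * (cos a * cos b) + r φ * sin θ * (cos a * sin b) + z φ * sin a := by
  simp [pos, nrm, PiLp.inner_apply, Fin.sum_univ_three]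
  ring

theorem g_width_norm (φ θ : ℝ) : ‖nrm φ θ‖ = 1 := by
  rw [EuclideanSpace.norm_eq, Real.sqrt_eq_one]
  simp only [nrm, Fin.sum_univ_three, Real.norm_eq_abs, sq_abs]
  simp
  linear_combination (cos φ)^2 * (sin_sq_add_cos_sq θ) + sin_sq_add_cos_sq φ

theorem g_width_neg (φ : ℝ) : nrm (-φ) π = - nrm φ 0 := by
  ext i
  fin_cases i <;> simp [nrm]

theorem g_width_F {r z R : ℝ → ℝ} (h : IsMeridian r z R) {w : ℝ} (hw : HasWidth (surf r z) w)
    (φ : ℝ) (hφ : 0 ≤ cos φ) :
    cos φ * (r φ + r (-φ)) + sin φ * (z φ - z (-φ)) = w := by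
  have hφ' : 0 ≤ cos (-φ) := by rwa [cos_neg]
  have h1 := hw (nrm φ 0) (g_width_norm φ 0)
  have hsup : IsGreatest ((fun p : E3 => ⟪p, nrm φ 0⟫) '' surf r z) (⟪pos r z φ 0, nrm φ 0⟫) := by
    constructor
    · exact ⟨pos r z φ 0, ⟨φ, 0, rfl⟩, rfl⟩
    · rintro y ⟨p, hp, rfl⟩
      exact (g_surf h hφ 0).1 p hp
  have hneg : ∀ p : E3, ⟪p, nrm φ 0⟫ = - ⟪p, nrm (-φ) π⟫ := by
    intro p
    rw [g_width_neg, inner_neg_right, neg_neg]
  have hinf : IsLeast ((fun p : E3 => ⟪p, nrm φ 0⟫) '' surf r z) (-⟪pos r z (-φ) π, nrm (-φ) π⟫) := by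
    constructor
    · exact ⟨pos r z (-φ) π, ⟨-φ, π, rfl⟩, hneg _⟩
    · rintro y ⟨p, hp, rfl⟩
      have := (g_surf h hφ' π).1 p hp
      show -⟪pos r z (-φ) π, nrm (-φ) π⟫ ≤ ⟪p, nrm φ 0⟫
      rw [hneg p]
      linarith
  rw [hsup.csSup_eq, hinf.csInf_eq, g_width_inner, g_width_inner] at h1
  simp only [cos_zero, sin_zero, cos_pi, sin_pi, cos_neg, sin_neg] at h1
  linarith

theorem g_width {r z R : ℝ → ℝ} (h : IsMeridian r z R) {w : ℝ} (hw : HasWidth (surf r z) w) :
    (∀ φ, r φ + r (-φ) = w * cos φ) ∧ (∀ φ, R φ + R (-φ) = w) ∧ 0 < w := by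
  have hF := g_width_F h hw
  have hA : ∀ φ, HasDerivAt (fun x => r x + r (-x)) (-((R φ + R (-φ)) * sin φ)) φ := by
    intro φ
    have h1 := h.dr φ
    have h2 := (h.dr (-φ)).comp φ (hasDerivAt_neg φ)
    have h3 := h1.add h2
    have e : -((R φ + R (-φ)) * sin φ) = -(R φ * sin φ) + -(R (-φ) * sin (-φ)) * -1 := by
      rw [sin_neg]; ring
    rw [e]
    exact h3
  have hB : ∀ φ, HasDerivAt (fun x => z x - z (-x)) ((R φ + R (-φ)) * cos φ) φ := by
    intro φ
    have h1 := h.dz φ
    have h2 := (h.dz (-φ)).comp φ (hasDerivAt_neg φ)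
    have h3 := h1.sub h2
    have e : (R φ + R (-φ)) * cos φ = R φ * cos φ - R (-φ) * cos (-φ) * -1 := by
      rw [cos_neg]; ring
    rw [e]
    exact h3
  have hev : ∀ φ, 0 < cos φ → ∀ᶠ x in 𝓝 φ, 0 < cos x := by
    intro φ hφ
    exact continuous_cos.continuousAt.eventually (lt_mem_nhds hφ)
  have hF' : ∀ φ, 0 < cos φ → cos φ * (z φ - z (-φ)) - sin φ * (r φ + r (-φ)) = 0 := by
    intro φ hφ
    have h1 : HasDerivAt (fun x => cos x * (r x + r (-x)) + sin x * (z x - z (-x)))
        ((-sin φ) * (r φ + r (-φ)) + cos φ * (-((R φ + R (-φ)) * sin φ)) +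
          (cos φ * (z φ - z (-φ)) + sin φ * ((R φ + R (-φ)) * cos φ))) φ :=
      ((hasDerivAt_cos φ).mul (hA φ)).add ((hasDerivAt_sin φ).mul (hB φ))
    have h2 : HasDerivAt (fun x => cos x * (r x + r (-x)) + sin x * (z x - z (-x))) 0 φ := by
      apply (hasDerivAt_const φ w).congr_of_eventuallyEq
      filter_upwards [hev φ hφ] with x hx
      exact hF x hx.le
    have h3 := h1.unique h2
    linarith
  have hAB : ∀ φ, 0 < cos φ → r φ + r (-φ) = w * cos φ ∧ z φ - z (-φ) = w * sin φ := by
    intro φ hφ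
    have h1 := hF φ hφ.le
    have h2 := hF' φ hφ
    have h3 := sin_sq_add_cos_sq φ
    constructor
    · linear_combination (cos φ) * h1 - (sin φ) * h2 - (r φ + r (-φ)) * h3
    · linear_combination (sin φ) * h1 + (cos φ) * h2 - (z φ - z (-φ)) * h3
  have hS : ∀ φ, 0 < cos φ → R φ + R (-φ) = w := by
    intro φ hφ
    have h1 : HasDerivAt (fun x => z x - z (-x)) (w * cos φ) φ := by
      apply ((hasDerivAt_sin φ).const_mul w).congr_of_eventuallyEq
      filter_upwards [hev φ hφ] with x hx
      exact (hAB x hx).2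
    have h2 := (hB φ).unique h1
    exact mul_right_cancel₀ hφ.ne' h2
  -- symmetries
  have hsc : ∀ φ a b : ℝ, a * sin φ = b * sin φ → a * cos φ = b * cos φ → a = b := by
    intro φ a b h1 h2
    have h3 := sin_sq_add_cos_sq φ
    linear_combination (sin φ) * h1 + (cos φ) * h2 - (a - b) * h3
  have hRpi : ∀ φ, R (π - φ) = R φ := by
    intro φ
    apply hsc φ
    · have h1 : HasDerivAt (fun x => r (π - x)) (-(R (π - φ) * sin (π - φ)) * (-1)) φ := by
        have := (h.dr (π - φ)).comp φ ((hasDerivAt_id φ).const_sub π)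
        exact this
      have h2 : HasDerivAt (fun x => r (π - x)) (-(-(R φ * sin φ))) φ := by
        have e : (fun x => r (π - x)) = fun x => - r x := by funext x; exact h.symr x
        rw [e]
        exact (h.dr φ).neg
      have h3 := h1.unique h2
      rw [sin_pi_sub] at h3
      linarith
    · have h1 : HasDerivAt (fun x => z (π - x)) (R (π - φ) * cos (π - φ) * (-1)) φ := by
        have := (h.dz (π - φ)).comp φ ((hasDerivAt_id φ).const_sub π)
        exact this
      have h2 : HasDerivAt (fun x => z (π - x)) (R φ * cos φ) φ := by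
        have e : (fun x => z (π - x)) = fun x => z x := by funext x; exact h.symz x
        rw [e]
        exact h.dz φ
      have h3 := h1.unique h2
      rw [cos_pi_sub] at h3
      linarith
  have hR2 : ∀ φ, R (φ + 2 * π) = R φ := by
    intro φ
    apply hsc φ
    · have h1 : HasDerivAt (fun x => r (x + 2 * π)) (-(R (φ + 2 * π) * sin (φ + 2 * π)) * 1) φ := by
        have := (h.dr (φ + 2 * π)).comp φ ((hasDerivAt_id φ).add_const (2 * π))
        exact this
      have h2 : HasDerivAt (fun x => r (x + 2 * π)) (-(R φ * sin φ)) φ := by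
        have e : (fun x => r (x + 2 * π)) = fun x => r x := by funext x; exact h.perr x
        rw [e]
        exact h.dr φ
      have h3 := h1.unique h2
      rw [sin_add_two_pi] at h3
      linarith
    · have h1 : HasDerivAt (fun x => z (x + 2 * π)) (R (φ + 2 * π) * cos (φ + 2 * π) * 1) φ := by
        have := (h.dz (φ + 2 * π)).comp φ ((hasDerivAt_id φ).add_const (2 * π))
        exact this
      have h2 : HasDerivAt (fun x => z (x + 2 * π)) (R φ * cos φ) φ := by
        have e : (fun x => z (x + 2 * π)) = fun x => z x := by funext x; exact h.perz x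
        rw [e]
        exact h.dz φ
      have h3 := h1.unique h2
      rw [cos_add_two_pi] at h3
      linarith
  have hAneg : ∀ φ, cos φ < 0 → r φ + r (-φ) = w * cos φ := by
    intro φ hφ
    have h1 : 0 < cos (φ + π) := by rw [cos_add_pi]; linarith
    have h2 := (hAB (φ + π) h1).1
    have e1 : r (φ + π) = - r (-φ) := by
      have := h.symr (-φ)
      rw [← this]; congr 1; ring
    have e2 : r (-(φ + π)) = - r φ := by
      have := h.perr (-(φ + π))
      rw [← this, ← h.symr φ]; congr 1; ring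
    rw [e1, e2, cos_add_pi] at h2
    linarith
  have hSneg : ∀ φ, cos φ < 0 → R φ + R (-φ) = w := by
    intro φ hφ
    have h1 : 0 < cos (φ + π) := by rw [cos_add_pi]; linarith
    have h2 := hS (φ + π) h1
    have e1 : R (φ + π) = R (-φ) := by
      have := hRpi (-φ)
      rw [← this]; congr 1; ring
    have e2 : R (-(φ + π)) = R φ := by
      have := hR2 (-(φ + π))
      rw [← this, ← hRpi φ]; congr 1; ring
    rw [e1, e2] at h2
    linarith
  have hdense : Dense {φ : ℝ | cos φ = 0}ᶜ := by
    apply Set.Countable.dense_compl ℝ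
    have : {φ : ℝ | cos φ = 0} ⊆ Set.range (fun k : ℤ => (2 * (k : ℝ) + 1) * π / 2) := by
      intro φ hφ
      obtain ⟨k, hk⟩ := Real.cos_eq_zero_iff.mp hφ
      exact ⟨k, hk.symm⟩
    exact (Set.countable_range _).mono this
  have hrc : Continuous r := continuous_iff_continuousAt.mpr (fun x => (h.dr x).continuousAt)
  have hRc : Continuous R := h.smooth.continuous
  have hAall : (fun φ => r φ + r (-φ)) = fun φ => w * cos φ := by
    apply Continuous.ext_on hdense (by fun_prop) (by fun_prop)
    intro φ hφ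
    rcases lt_or_gt_of_ne (show cos φ ≠ 0 from hφ) with h1 | h1
    · exact hAneg φ h1
    · exact (hAB φ h1).1
  have hSall : (fun φ => R φ + R (-φ)) = fun _ => w := by
    apply Continuous.ext_on hdense (by fun_prop) (by fun_prop)
    intro φ hφ
    rcases lt_or_gt_of_ne (show cos φ ≠ 0 from hφ) with h1 | h1
    · exact hSneg φ h1
    · exact hS φ h1
  refine ⟨fun φ => congrFun hAall φ, fun φ => congrFun hSall φ, ?_⟩
  have h0 := congrFun hAall 0
  simp only [neg_zero, cos_zero, mul_one] at h0
  have hanti : StrictAntiOn r (Icc 0 (π / 2)) := by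
    apply strictAntiOn_of_deriv_neg (convex_Icc _ _) hrc.continuousOn
    intro x hx
    rw [interior_Icc] at hx
    rw [(h.dr x).deriv]
    have h1 : 0 < sin x := sin_pos_of_pos_of_lt_pi hx.1 (by have := pi_pos; linarith [hx.2])
    have := mul_pos (h.pos x) h1
    linarith
  have hpi := pi_pos
  have h2 : r (π / 2) < r 0 :=
    hanti (left_mem_Icc.mpr (by linarith)) (right_mem_Icc.mpr (by linarith)) (by linarith)
  have h3 : r (π / 2) = 0 := by
    have := h.symr (π / 2)
    have e : π - π / 2 = π / 2 := by ring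
    rw [e] at this
    linarith
  linarith


end J_g_width

alias g_width := J_g_width.g_width

end Pool.Agent.Helper10.ARM
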