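import Mathlib
import Pool.Agent.Helper10.ARM.Base

open Set Filter Topology Real
open scoped RealInnerProductSpace ContDiff

noncomputable section

namespace Pool.Agent.Helper10.ARM

namespace J_int1


-- TARGET: prove this (put auxiliary lemmas between the ASSUMED END line and the theorem)



open MeasureTheory in
theorem int1_aux_r {m : ℝ} (hm : 0 < m) :
    IntegrableOn (fun r : ℝ => r / √(m ^ 2 - r ^ 2)) (Ioc 0 m) ∧
      ∫ r in Ioc 0 m, r / √(m ^ 2 - r ^ 2) = m := by
  have hcont : ContinuousOn (fun r : ℝ => -√(m ^ 2 - r ^ 2)) (Icc 0 m) := by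
    fun_prop
  have hder : ∀ r ∈ Ioo 0 m, HasDerivAt (fun r : ℝ => -√(m ^ 2 - r ^ 2)) (r / √(m ^ 2 - r ^ 2)) r := by
    intro r hr
    have hpos : 0 < m ^ 2 - r ^ 2 := by nlinarith [hr.1, hr.2]
    have h1 : HasDerivAt (fun r : ℝ => m ^ 2 - r ^ 2) (-(2 * r)) r := by
      have := ((hasDerivAt_id r).pow 2).const_sub (m ^ 2)
      simpa using this
    have h2 := (h1.sqrt hpos.ne').neg
    have h3 : r / √(m ^ 2 - r ^ 2) = -(-(2 * r) / (2 * √(m ^ 2 - r ^ 2))) := by
      rw [neg_div, neg_neg, mul_div_mul_left _ _ two_ne_zero]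
    rw [h3]
    exact h2
  have hnn : ∀ r ∈ Ioo 0 m, 0 ≤ r / √(m ^ 2 - r ^ 2) := fun r hr =>
    div_nonneg hr.1.le (Real.sqrt_nonneg _)
  have hint := intervalIntegral.integrableOn_deriv_of_nonneg hcont hder hnn
  refine ⟨hint, ?_⟩
  have hii : IntervalIntegrable (fun r : ℝ => r / √(m ^ 2 - r ^ 2)) volume 0 m :=
    (intervalIntegrable_iff_integrableOn_Ioc_of_le hm.le).2 hint
  have := intervalIntegral.integral_eq_sub_of_hasDerivAt_of_le hm.le hcont hder hii
  rw [intervalIntegral.integral_of_le hm.le] at this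
  rw [this]
  simp [Real.sqrt_sq hm.le]

open MeasureTheory in
theorem int1_aux_polar {Q : ℝ → ℝ} {m : ℝ} (hm : 0 < m) (hQ : Continuous Q)
    (hp : ∀ x, 0 < Q x) :
    ∫⁻ r in Ioi (0 : ℝ), ∫⁻ θ in Ioo (-π) π,
      ENNReal.ofReal r • (if r < m then
        ENNReal.ofReal (Q (r * cos θ) / (m ^ 2 - (r * cos θ) ^ 2)) else 0) =
      ∫⁻ x in Ioo (-m) m, ENNReal.ofReal (2 * (Q x / √(m ^ 2 - x ^ 2))) := by
  set F : ℝ × ℝ → ENNReal := fun p =>
    if p.1 ^ 2 + p.2 ^ 2 < m ^ 2 then ENNReal.ofReal (Q p.1 / (m ^ 2 - p.1 ^ 2)) else 0 with hF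
  have hFm : Measurable F := by
    refine Measurable.ite (measurableSet_lt (by fun_prop) (by fun_prop)) ?_ measurable_const
    refine ENNReal.measurable_ofReal.comp ?_
    exact (hQ.measurable.comp measurable_fst).div (by fun_prop)
  have key := lintegral_comp_polarCoord_symm F
  have hL : ∫⁻ p in polarCoord.target, ENNReal.ofReal p.1 • F (polarCoord.symm p) =
      ∫⁻ r in Ioi (0 : ℝ), ∫⁻ θ in Ioo (-π) π,
      ENNReal.ofReal r • (if r < m then
        ENNReal.ofReal (Q (r * cos θ) / (m ^ 2 - (r * cos θ) ^ 2)) else 0) := by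
    rw [polarCoord_target, Measure.volume_eq_prod, ← Measure.prod_restrict, lintegral_prod]
    · refine setLIntegral_congr_fun measurableSet_Ioi ?_
      intro r hr
      simp only
      refine lintegral_congr ?_
      intro θ
      simp only [polarCoord_symm_apply, hF]
      have h1 : (r * cos θ) ^ 2 + (r * sin θ) ^ 2 = r ^ 2 := by
        have := Real.sin_sq_add_cos_sq θ
        nlinarith [this]
      rw [h1]
      have h2 : (r ^ 2 < m ^ 2) ↔ r < m := by
        have hr' : (0 : ℝ) < r := hr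
        constructor
        · intro h; nlinarith
        · intro h; nlinarith
      simp only [h2]
    · refine Measurable.aemeasurable ?_
      have : Measurable (fun p : ℝ × ℝ => polarCoord.symm p) := by
        exact continuous_polarCoord_symm.measurable
      exact (ENNReal.measurable_ofReal.comp measurable_fst).mul (hFm.comp this)
  rw [hL] at key
  rw [key, Measure.volume_eq_prod, lintegral_prod _ hFm.aemeasurable, ← lintegral_indicator measurableSet_Ioo]
  refine lintegral_congr ?_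
  intro x
  by_cases hx : x ∈ Ioo (-m) m
  · rw [indicator_of_mem hx]
    have hpos : 0 < m ^ 2 - x ^ 2 := by nlinarith [hx.1, hx.2]
    have hs : 0 < √(m ^ 2 - x ^ 2) := Real.sqrt_pos.2 hpos
    have hss : √(m ^ 2 - x ^ 2) * √(m ^ 2 - x ^ 2) = m ^ 2 - x ^ 2 := Real.mul_self_sqrt hpos.le
    have h1 : ∀ y : ℝ, F (x, y) = (Ioo (-√(m ^ 2 - x ^ 2)) (√(m ^ 2 - x ^ 2))).indicator
        (fun _ => ENNReal.ofReal (Q x / (m ^ 2 - x ^ 2))) y := by
      intro y
      simp only [hF, indicator]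
      have : (x ^ 2 + y ^ 2 < m ^ 2) ↔ y ∈ Ioo (-√(m ^ 2 - x ^ 2)) (√(m ^ 2 - x ^ 2)) := by
        rw [mem_Ioo, ← abs_lt, Real.lt_sqrt (abs_nonneg y), sq_abs]
        constructor <;> intro h <;> linarith
      simp only [this]
    simp_rw [h1]
    rw [lintegral_indicator measurableSet_Ioo, setLIntegral_const, Real.volume_Ioo,
      ← ENNReal.ofReal_mul (div_nonneg (hp x).le hpos.le)]
    congr 1
    clear h1
    generalize √(m ^ 2 - x ^ 2) = s at *
    rw [← hss]
    field_simp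
    ring
  · rw [indicator_of_notMem hx]
    have h1 : ∀ y : ℝ, F (x, y) = 0 := by
      intro y
      simp only [hF]
      rw [if_neg]
      intro h
      apply hx
      have : x ^ 2 < m ^ 2 := by nlinarith [sq_nonneg y]
      exact abs_lt.1 (abs_lt_of_sq_lt_sq this hm.le)
    simp [h1]

open MeasureTheory in
theorem int1_aux_main {Q : ℝ → ℝ} {m C : ℝ} (hm : 0 < m) (hQ : Continuous Q)
    (hp : ∀ x, 0 < Q x) (h : ∀ a ∈ Ioo 0 m, adv Q m a = C) :
    C * m = 2 * ∫ x in (-m)..m, Q x / √(m ^ 2 - x ^ 2) := by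
  -- the inner integral
  have hinner : ∀ r ∈ Ioo 0 m, ∫ θ in Ioo (-π) π, Q (r * cos θ) / (m ^ 2 - (r * cos θ) ^ 2) =
      C * (1 / √(m ^ 2 - r ^ 2)) ∧
      IntegrableOn (fun θ => Q (r * cos θ) / (m ^ 2 - (r * cos θ) ^ 2)) (Ioo (-π) π) ∧
      ∀ θ : ℝ, 0 ≤ Q (r * cos θ) / (m ^ 2 - (r * cos θ) ^ 2) := by
    intro r hr
    have hpos : 0 < m ^ 2 - r ^ 2 := by nlinarith [hr.1, hr.2]
    have hs : 0 < √(m ^ 2 - r ^ 2) := Real.sqrt_pos.2 hpos
    have hden : ∀ θ : ℝ, 0 < m ^ 2 - (r * cos θ) ^ 2 := by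
      intro θ
      have : cos θ ^ 2 ≤ 1 := Real.cos_sq_le_one θ
      nlinarith [sq_nonneg r, mul_le_mul_of_nonneg_left this (sq_nonneg r)]
    have hcont : Continuous (fun θ => Q (r * cos θ) / (m ^ 2 - (r * cos θ) ^ 2)) := by
      refine Continuous.div (hQ.comp (by fun_prop)) (by fun_prop) (fun θ => (hden θ).ne')
    refine ⟨?_, ?_, fun θ => div_nonneg (hp _).le (hden θ).le⟩
    · have ha : √(m ^ 2 - r ^ 2) ∈ Ioo 0 m := by
        refine ⟨hs, ?_⟩
        rw [Real.sqrt_lt' hm]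
        nlinarith [hr.1]
      have h1 := h _ ha
      unfold adv at h1
      have h2 : √(m ^ 2 - √(m ^ 2 - r ^ 2) ^ 2) = r := by
        rw [Real.sq_sqrt hpos.le]
        rw [show m ^ 2 - (m ^ 2 - r ^ 2) = r ^ 2 by ring]
        exact Real.sqrt_sq hr.1.le
      have h3 : m ^ 2 - √(m ^ 2 - r ^ 2) ^ 2 = r ^ 2 := by
        rw [Real.sq_sqrt hpos.le]; ring
      rw [h2, h3] at h1
      have h4 : ∀ u : ℝ, √(m ^ 2 - r ^ 2) * Q (r * cos u) / (m ^ 2 - r ^ 2 * cos u ^ 2) =
          √(m ^ 2 - r ^ 2) * (Q (r * cos u) / (m ^ 2 - (r * cos u) ^ 2)) := by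
        intro u
        rw [mul_pow, mul_div_assoc]
      simp_rw [h4] at h1
      rw [intervalIntegral.integral_const_mul] at h1
      have hper : Function.Periodic (fun θ => Q (r * cos θ) / (m ^ 2 - (r * cos θ) ^ 2)) (2 * π) := by
        intro θ
        simp [Real.cos_add_two_pi]
      have h5 := hper.intervalIntegral_add_eq 0 (-π)
      rw [show (0 : ℝ) + 2 * π = 2 * π by ring, show -π + 2 * π = π by ring] at h5
      rw [h5, intervalIntegral.integral_of_le (by linarith [Real.pi_pos]),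
        integral_Ioc_eq_integral_Ioo] at h1
      rw [← h1]
      field_simp
    · exact (hcont.integrableOn_Icc (a := -π) (b := π)).mono_set Ioo_subset_Icc_self
  have hC : 0 ≤ C := by
    have hr : m / 2 ∈ Ioo 0 m := ⟨by linarith, by linarith⟩
    obtain ⟨h1, h2, h3⟩ := hinner _ hr
    have hpos : 0 < m ^ 2 - (m / 2) ^ 2 := by nlinarith
    have hs : 0 < √(m ^ 2 - (m / 2) ^ 2) := Real.sqrt_pos.2 hpos
    have h4 : 0 ≤ C * (1 / √(m ^ 2 - (m / 2) ^ 2)) := by
      rw [← h1]
      exact integral_nonneg h3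
    have h5 : 0 < 1 / √(m ^ 2 - (m / 2) ^ 2) := by positivity
    exact nonneg_of_mul_nonneg_left h4 h5
  have key := int1_aux_polar hm hQ hp
  obtain ⟨hri, hrv⟩ := int1_aux_r hm
  -- the left side
  have hL : ∫⁻ r in Ioi (0 : ℝ), ∫⁻ θ in Ioo (-π) π,
      ENNReal.ofReal r • (if r < m then
        ENNReal.ofReal (Q (r * cos θ) / (m ^ 2 - (r * cos θ) ^ 2)) else 0) =
      ENNReal.ofReal (C * m) := by
    have h1 : ∀ r ∈ Ioi (0 : ℝ), ∫⁻ θ in Ioo (-π) π,
      ENNReal.ofReal r • (if r < m then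
        ENNReal.ofReal (Q (r * cos θ) / (m ^ 2 - (r * cos θ) ^ 2)) else 0) =
        (Ioo 0 m).indicator (fun r => ENNReal.ofReal (C * (r / √(m ^ 2 - r ^ 2)))) r := by
      intro r hr
      have hr0 : (0 : ℝ) < r := hr
      by_cases hrm : r < m
      · rw [indicator_of_mem (show r ∈ Ioo 0 m from ⟨hr0, hrm⟩)]
        simp only [hrm, if_true, smul_eq_mul]
        obtain ⟨h1, h2, h3⟩ := hinner r ⟨hr0, hrm⟩
        rw [lintegral_const_mul' _ _ ENNReal.ofReal_ne_top,
          ← ofReal_integral_eq_lintegral_ofReal h2 (Filter.Eventually.of_forall h3), h1,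
          ← ENNReal.ofReal_mul hr0.le]
        congr 1
        ring
      · rw [indicator_of_notMem (fun hh => hrm hh.2)]
        simp [hrm]
    rw [setLIntegral_congr_fun measurableSet_Ioi h1, lintegral_indicator measurableSet_Ioo,
      Measure.restrict_restrict measurableSet_Ioo]
    have hset : Ioo 0 m ∩ Ioi 0 = Ioo 0 m := by
      ext r; constructor
      · exact fun hh => hh.1
      · exact fun hh => ⟨hh, hh.1⟩
    rw [hset]
    have hio : IntegrableOn (fun r : ℝ => C * (r / √(m ^ 2 - r ^ 2))) (Ioo 0 m) :=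
      (hri.mono_set Ioo_subset_Ioc_self).const_mul C
    rw [← ofReal_integral_eq_lintegral_ofReal hio]
    · congr 1
      rw [integral_const_mul, ← integral_Ioc_eq_integral_Ioo, hrv]
    · refine (ae_restrict_mem measurableSet_Ioo).mono ?_
      intro r hr
      exact mul_nonneg hC (div_nonneg hr.1.le (Real.sqrt_nonneg _))
  rw [hL] at key
  rw [intervalIntegral.integral_of_le (by linarith), integral_Ioc_eq_integral_Ioo,
    ← integral_const_mul, integral_eq_lintegral_of_nonneg_ae]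
  · rw [← key, ENNReal.toReal_ofReal (mul_nonneg hC hm.le)]
  · exact Filter.Eventually.of_forall fun x =>
      mul_nonneg zero_le_two (div_nonneg (hp x).le (Real.sqrt_nonneg _))
  · refine Measurable.aestronglyMeasurable ?_
    have := hQ.measurable
    fun_prop

theorem int1_adv_congr {Q Q' : ℝ → ℝ} {m a : ℝ} (hm : 0 < m) (ha : a ∈ Ioo 0 m)
    (h : ∀ x ∈ Icc (-m) m, Q x = Q' x) : adv Q m a = adv Q' m a := by
  unfold adv
  have hb : √(m ^ 2 - a ^ 2) ≤ m := by
    rw [Real.sqrt_le_left hm.le]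
    nlinarith [ha.1]
  refine intervalIntegral.integral_congr ?_
  intro u _
  simp only
  rw [h]
  have h0 : 0 ≤ √(m ^ 2 - a ^ 2) := Real.sqrt_nonneg _
  have h1 : |√(m ^ 2 - a ^ 2) * cos u| ≤ m := by
    rw [abs_mul, abs_of_nonneg h0]
    calc √(m ^ 2 - a ^ 2) * |cos u| ≤ m * 1 :=
          mul_le_mul hb (Real.abs_cos_le_one u) (abs_nonneg _) hm.le
      _ = m := mul_one m
  exact abs_le.1 h1

theorem int1 {Q : ℝ → ℝ} {m C : ℝ} (hm : 0 < m) (hQ : ContinuousOn Q (Icc (-m) m))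
    (hp : ∀ x ∈ Icc (-m) m, 0 < Q x) (h : ∀ a ∈ Ioo 0 m, adv Q m a = C) :
    C * m = 2 * ∫ x in (-m)..m, Q x / √(m ^ 2 - x ^ 2) := by
  have hle : -m ≤ m := by linarith
  set Qe : ℝ → ℝ := fun x => Q (projIcc (-m) m hle x) with hQe
  have hc : Continuous Qe := by
    exact (continuousOn_iff_continuous_domRestrict.1 hQ).comp continuous_projIcc
  have hpe : ∀ x, 0 < Qe x := fun x => hp _ (projIcc (-m) m hle x).2
  have heq : ∀ x ∈ Icc (-m) m, Q x = Qe x := by
    intro x hx
    simp only [hQe]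
    rw [projIcc_of_mem hle hx]
  have h' : ∀ a ∈ Ioo 0 m, adv Qe m a = C := by
    intro a ha
    rw [← int1_adv_congr hm ha heq]
    exact h a ha
  rw [int1_aux_main hm hc hpe h']
  congr 1
  refine intervalIntegral.integral_congr ?_
  intro x hx
  rw [uIcc_of_le hle] at hx
  simp only
  rw [heq x hx]


end J_int1

alias int1 := J_int1.int1

end Pool.Agent.Helper10.ARM
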