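import Mathlib
import Pool.Agent.Helper10.ARM.Base

open Set Filter Topology Real
open scoped RealInnerProductSpace ContDiff

noncomputable section

namespace Pool.Agent.Helper10.ARM

namespace J_int2


-- TARGET: prove this (put auxiliary lemmas between the ASSUMED END line and the theorem)

theorem half_disc {c : ℝ} (hc : 0 < c) : ∫ y in (-c)..c, √(c ^ 2 - y ^ 2) = π * c ^ 2 / 2 := by
  have h := intervalIntegral.smul_integral_comp_mul_left (a := -1) (b := 1)
    (fun y : ℝ => √(c ^ 2 - y ^ 2)) c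
  have h1 : ∀ x : ℝ, √(c ^ 2 - (c * x) ^ 2) = c * √(1 - x ^ 2) := by
    intro x
    have : c ^ 2 - (c * x) ^ 2 = c ^ 2 * (1 - x ^ 2) := by ring
    rw [this, Real.sqrt_mul (by positivity), Real.sqrt_sq hc.le]
  simp only [h1, mul_neg, mul_one, smul_eq_mul, intervalIntegral.integral_const_mul,
    integral_sqrt_one_sub_sq] at h
  rw [← h]; ring

theorem slice {c : ℝ} (hc : 0 < c) {q : ℝ} (hq : 0 ≤ q) :
    ∫⁻ y : ℝ, ENNReal.ofReal (√(c ^ 2 - y ^ 2) * q) = ENNReal.ofReal (π * c ^ 2 / 2 * q) := by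
  have hsupp : Function.support (fun y : ℝ => √(c ^ 2 - y ^ 2) * q) ⊆ Ioc (-c) c := by
    intro y hy
    by_contra hcon
    apply hy
    have : c ^ 2 - y ^ 2 ≤ 0 := by
      by_contra hlt
      push Not at hlt
      have : y ^ 2 < c ^ 2 := by linarith
      have := abs_lt.1 (abs_lt_of_sq_lt_sq this hc.le)
      exact hcon ⟨this.1, this.2.le⟩
    simp [Real.sqrt_eq_zero_of_nonpos this]
  have hcont : Continuous (fun y : ℝ => √(c ^ 2 - y ^ 2) * q) := by fun_prop
  have hint : MeasureTheory.Integrable (fun y : ℝ => √(c ^ 2 - y ^ 2) * q) := by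
    apply hcont.integrable_of_hasCompactSupport
    apply HasCompactSupport.intro (isCompact_Icc (a := -c) (b := c))
    intro y hy
    by_contra hne
    exact hy (Ioc_subset_Icc_self (hsupp hne))
  rw [← MeasureTheory.ofReal_integral_eq_lintegral_ofReal hint
    (Filter.Eventually.of_forall fun y => by positivity)]
  rw [← intervalIntegral.integral_eq_integral_of_support_subset hsupp,
    intervalIntegral.integral_mul_const, half_disc hc]

theorem polar_slice {Q : ℝ → ℝ} {m C : ℝ} (hm : 0 < m) (hQ : Continuous Q) (hp : ∀ x, 0 < Q x)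
    (h : ∀ a ∈ Ioo 0 m, adv Q m a = C) {b : ℝ} (hb : b ∈ Ioo 0 m) :
    ∫⁻ u in Ioo (-π) π, ENNReal.ofReal (b * (√(m ^ 2 - b ^ 2) *
      (Q (b * cos u) / (m ^ 2 - (b * cos u) ^ 2)))) = ENNReal.ofReal (b * C) := by
  obtain ⟨hb0, hbm⟩ := hb
  have hbsq : b ^ 2 < m ^ 2 := by nlinarith
  have hden : ∀ u : ℝ, 0 < m ^ 2 - (b * cos u) ^ 2 := by
    intro u
    have h1 : (b * cos u) ^ 2 ≤ b ^ 2 := by
      have := Real.cos_sq_le_one u
      nlinarith [sq_nonneg b]
    linarith
  set a : ℝ := √(m ^ 2 - b ^ 2) with ha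
  have ha0 : 0 < a := Real.sqrt_pos.2 (by linarith)
  have hasq : a ^ 2 = m ^ 2 - b ^ 2 := Real.sq_sqrt (by linarith)
  have ham : a < m := by nlinarith
  have hab : √(m ^ 2 - a ^ 2) = b := by
    rw [hasq]
    have : m ^ 2 - (m ^ 2 - b ^ 2) = b ^ 2 := by ring
    rw [this, Real.sqrt_sq hb0.le]
  have hadv := h a ⟨ha0, ham⟩
  have hcont : Continuous (fun u : ℝ => b * (a * (Q (b * cos u) / (m ^ 2 - (b * cos u) ^ 2)))) := by
    apply Continuous.mul continuous_const
    apply Continuous.mul continuous_const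
    apply Continuous.div
    · exact hQ.comp (by fun_prop)
    · fun_prop
    · intro u; exact (hden u).ne'
  have hint : MeasureTheory.IntegrableOn
      (fun u : ℝ => b * (a * (Q (b * cos u) / (m ^ 2 - (b * cos u) ^ 2)))) (Ioo (-π) π) :=
    (hcont.integrableOn_Icc).mono_set Ioo_subset_Icc_self
  rw [← MeasureTheory.ofReal_integral_eq_lintegral_ofReal hint
    (Filter.Eventually.of_forall fun u => by
      have := hden u
      have := hp (b * cos u)
      positivity)]
  congr 1
  rw [← MeasureTheory.integral_Ioc_eq_integral_Ioo,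
    ← intervalIntegral.integral_of_le (by linarith [Real.pi_pos])]
  rw [intervalIntegral.integral_const_mul, ← hadv]
  congr 1
  unfold adv
  have hper : Function.Periodic
      (fun u : ℝ => (a * (Q (b * cos u) / (m ^ 2 - (b * cos u) ^ 2)))) (2 * π) := by
    intro u
    simp only [Real.cos_add_two_pi]
  have h2 := hper.intervalIntegral_add_eq (-π) 0
  have e1 : -π + 2 * π = π := by ring
  rw [e1, zero_add] at h2
  rw [h2]
  apply intervalIntegral.integral_congr
  intro u _
  simp only [hab]
  have : m ^ 2 - (m ^ 2 - a ^ 2) * cos u ^ 2 = m ^ 2 - (b * cos u) ^ 2 := by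
    rw [hasq]; ring
  rw [this, mul_div_assoc]

theorem int2_aux {Q : ℝ → ℝ} {m C : ℝ} (hm : 0 < m) (hQ : Continuous Q) (hp : ∀ x, 0 < Q x)
    (h : ∀ a ∈ Ioo 0 m, adv Q m a = C) :
    C * m ^ 2 / 2 = π / 2 * ∫ x in (-m)..m, Q x := by
  let F : ℝ × ℝ → ENNReal := fun p =>
    ENNReal.ofReal (√(m ^ 2 - p.1 ^ 2 - p.2 ^ 2) * (Q p.1 / (m ^ 2 - p.1 ^ 2)))
  have hF : Measurable F := by
    have hQm : Measurable Q := hQ.measurable
    have h1 : Measurable (fun p : ℝ × ℝ => Q p.1) := hQm.comp measurable_fst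
    have h2 : Measurable (fun p : ℝ × ℝ => √(m ^ 2 - p.1 ^ 2 - p.2 ^ 2)) :=
      (by fun_prop : Continuous (fun p : ℝ × ℝ => √(m ^ 2 - p.1 ^ 2 - p.2 ^ 2))).measurable
    have h3 : Measurable (fun p : ℝ × ℝ => m ^ 2 - p.1 ^ 2) :=
      (by fun_prop : Continuous (fun p : ℝ × ℝ => m ^ 2 - p.1 ^ 2)).measurable
    exact (h2.mul (h1.div h3)).ennreal_ofReal
  have hC : 0 ≤ C := by
    rw [← h (m / 2) ⟨by linarith, by linarith⟩]
    unfold adv
    apply intervalIntegral.integral_nonneg (by positivity)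
    intro u _
    apply div_nonneg
    · exact mul_nonneg (by linarith) (hp _).le
    · have := Real.cos_sq_le_one u
      nlinarith [sq_nonneg m]
  -- cartesian side
  have cart : ∫⁻ p, F p = ENNReal.ofReal (π / 2 * ∫ x in (-m)..m, Q x) := by
    rw [MeasureTheory.Measure.volume_eq_prod, MeasureTheory.lintegral_prod _ hF.aemeasurable]
    have e : ∀ x : ℝ, ∫⁻ y : ℝ, F (x, y) =
        (Ioo (-m) m).indicator (fun x => ENNReal.ofReal (π / 2 * Q x)) x := by
      intro x
      by_cases hx : x ∈ Ioo (-m) m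
      · rw [Set.indicator_of_mem hx]
        have hx2 : x ^ 2 < m ^ 2 := sq_lt_sq' hx.1 hx.2
        set c : ℝ := √(m ^ 2 - x ^ 2) with hc
        have hc0 : 0 < c := Real.sqrt_pos.2 (by linarith)
        have hcsq : c ^ 2 = m ^ 2 - x ^ 2 := Real.sq_sqrt (by linarith)
        have := slice hc0 (q := Q x / (m ^ 2 - x ^ 2)) (div_nonneg (hp x).le (by linarith))
        simp only [F]
        rw [← hcsq] at this ⊢
        rw [this]
        congr 1
        field_simp
      · rw [Set.indicator_of_notMem hx]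
        have hx2 : m ^ 2 - x ^ 2 ≤ 0 := by
          by_contra hcon
          push Not at hcon
          exact hx (abs_lt.1 (abs_lt_of_sq_lt_sq (by linarith) hm.le))
        have : ∀ y : ℝ, F (x, y) = 0 := by
          intro y
          simp only [F]
          rw [Real.sqrt_eq_zero_of_nonpos (by nlinarith [sq_nonneg y])]
          simp
        simp [this]
    simp only [e]
    rw [MeasureTheory.lintegral_indicator measurableSet_Ioo]
    have hint : MeasureTheory.IntegrableOn (fun x : ℝ => π / 2 * Q x) (Ioo (-m) m) :=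
      ((continuous_const.mul hQ).integrableOn_Icc).mono_set Ioo_subset_Icc_self
    rw [← MeasureTheory.ofReal_integral_eq_lintegral_ofReal hint
      (Filter.Eventually.of_forall fun u => by
        have := hp u
        positivity)]
    rw [← MeasureTheory.integral_Ioc_eq_integral_Ioo,
      ← intervalIntegral.integral_of_le (by linarith), intervalIntegral.integral_const_mul]
  -- polar side
  have pol : ∫⁻ p, F p = ENNReal.ofReal (C * m ^ 2 / 2) := by
    rw [← lintegral_comp_polarCoord_symm]
    have ht : polarCoord.target = Ioi (0 : ℝ) ×ˢ Ioo (-π) π := rfl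
    rw [ht]
    have e1 : ∀ p : ℝ × ℝ, polarCoord.symm p = (p.1 * cos p.2, p.1 * sin p.2) := fun p => rfl
    simp only [e1, smul_eq_mul]
    have hF2 : Measurable (fun p : ℝ × ℝ => F (p.1 * cos p.2, p.1 * sin p.2)) :=
      hF.comp ((by fun_prop : Continuous
        (fun p : ℝ × ℝ => (p.1 * cos p.2, p.1 * sin p.2))).measurable)
    have hF3 : Measurable (fun p : ℝ × ℝ =>
        ENNReal.ofReal p.1 * F (p.1 * cos p.2, p.1 * sin p.2)) :=
      measurable_fst.ennreal_ofReal.mul hF2
    rw [MeasureTheory.Measure.volume_eq_prod, MeasureTheory.setLIntegral_prod _ hF3.aemeasurable]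
    have e2 : ∀ b ∈ Ioi (0 : ℝ), ∫⁻ u in Ioo (-π) π,
        ENNReal.ofReal b * F (b * cos u, b * sin u) =
        (Ioo 0 m).indicator (fun b => ENNReal.ofReal (b * C)) b := by
      intro b hb
      have hb0 : 0 < b := hb
      have e3 : ∀ u : ℝ, ENNReal.ofReal b * F (b * cos u, b * sin u) =
          ENNReal.ofReal (b * (√(m ^ 2 - b ^ 2) *
            (Q (b * cos u) / (m ^ 2 - (b * cos u) ^ 2)))) := by
        intro u
        simp only [F]
        rw [← ENNReal.ofReal_mul hb0.le]
        have : m ^ 2 - (b * cos u) ^ 2 - (b * sin u) ^ 2 = m ^ 2 - b ^ 2 := by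
          have := Real.sin_sq_add_cos_sq u
          linear_combination (-b ^ 2) * this
        rw [this]
      simp only [e3]
      by_cases hbm : b ∈ Ioo 0 m
      · rw [Set.indicator_of_mem hbm]
        exact polar_slice hm hQ hp h hbm
      · rw [Set.indicator_of_notMem hbm]
        have hbm' : m ≤ b := by
          by_contra hcon
          push Not at hcon
          exact hbm ⟨hb0, hcon⟩
        rw [Real.sqrt_eq_zero_of_nonpos (by nlinarith)]
        simp
    rw [MeasureTheory.setLIntegral_congr_fun measurableSet_Ioi e2,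
      MeasureTheory.lintegral_indicator measurableSet_Ioo,
      MeasureTheory.Measure.restrict_restrict measurableSet_Ioo]
    have e4 : Ioo 0 m ∩ Ioi (0 : ℝ) = Ioo 0 m := by
      ext x; simp only [mem_inter_iff, mem_Ioo, mem_Ioi]; tauto
    rw [e4]
    have hint : MeasureTheory.IntegrableOn (fun b : ℝ => b * C) (Ioo 0 m) :=
      ((continuous_id.mul continuous_const).integrableOn_Icc).mono_set Ioo_subset_Icc_self
    rw [← MeasureTheory.ofReal_integral_eq_lintegral_ofReal hint
      ((MeasureTheory.ae_restrict_iff' measurableSet_Ioo).2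
        (Filter.Eventually.of_forall fun b hb => mul_nonneg hb.1.le hC))]
    rw [← MeasureTheory.integral_Ioc_eq_integral_Ioo,
      ← intervalIntegral.integral_of_le hm.le, intervalIntegral.integral_mul_const, integral_id]
    congr 1
    ring
  have key := pol.symm.trans cart
  have hI : 0 ≤ ∫ x in (-m)..m, Q x :=
    intervalIntegral.integral_nonneg (by linarith) fun x _ => (hp x).le
  exact (ENNReal.ofReal_eq_ofReal_iff (by positivity) (by positivity)).1 key

theorem int2 {Q : ℝ → ℝ} {m C : ℝ} (hm : 0 < m) (hQ : ContinuousOn Q (Icc (-m) m))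
    (hp : ∀ x ∈ Icc (-m) m, 0 < Q x) (h : ∀ a ∈ Ioo 0 m, adv Q m a = C) :
    C * m ^ 2 / 2 = π / 2 * ∫ x in (-m)..m, Q x := by
  have hle : -m ≤ m := by linarith
  let Q' : ℝ → ℝ := IccExtend hle ((Icc (-m) m).domRestrict Q)
  have hQ'c : Continuous Q' := (continuousOn_iff_continuous_domRestrict.1 hQ).Icc_extend'
  have hQ'e : ∀ x ∈ Icc (-m) m, Q' x = Q x := by
    intro x hx
    simp only [Q', IccExtend_of_mem hle _ hx]
    rfl
  have hQ'p : ∀ x, 0 < Q' x := by
    intro x
    exact hp _ (projIcc (-m) m hle x).2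
  have hadv : ∀ a ∈ Ioo 0 m, adv Q' m a = C := by
    intro a ha
    rw [← h a ha]
    unfold adv
    apply intervalIntegral.integral_congr
    intro u _
    have h1 : √(m ^ 2 - a ^ 2) ≤ m := by
      rw [Real.sqrt_le_left hm.le]
      nlinarith [sq_nonneg a]
    have h0 : 0 ≤ √(m ^ 2 - a ^ 2) := Real.sqrt_nonneg _
    have hmem : √(m ^ 2 - a ^ 2) * cos u ∈ Icc (-m) m := by
      have := abs_le.1 (Real.abs_cos_le_one u)
      constructor <;> nlinarith
    simp only [hQ'e _ hmem]
  have := int2_aux hm hQ'c hQ'p hadv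
  rw [this]
  congr 1
  apply intervalIntegral.integral_congr
  intro x hx
  rw [uIcc_of_le hle] at hx
  exact hQ'e x hx


end J_int2

alias int2 := J_int2.int2

end Pool.Agent.Helper10.ARM
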