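import Mathlib
import Pool.Agent.Helper10.ARM.Base

open Set Filter Topology Real
open scoped RealInnerProductSpace ContDiff

noncomputable section

namespace Pool.Agent.Helper10.ARM

namespace J_morse


theorem morse_par {f f' : ℝ → ℝ} (hf : ∀ x, HasDerivAt f (f' x) x) (hf' : Continuous f') (k : ℕ)
    (x : ℝ) : HasDerivAt (fun x => ∫ t in (0:ℝ)..1, t ^ k * f (t * x))
      (∫ t in (0:ℝ)..1, t ^ (k+1) * f' (t * x)) x := by
  have hfc : Continuous f := continuous_iff_continuousAt.2 fun x => (hf x).continuousAt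
  obtain ⟨C, hC⟩ := (isCompact_Icc (a := -(|x|+1)) (b := |x|+1)).exists_bound_of_continuousOn
    hf'.continuousOn
  refine (intervalIntegral.hasDerivAt_integral_of_dominated_loc_of_deriv_le
    (F := fun x t => t ^ k * f (t * x)) (F' := fun x t => t ^ (k+1) * f' (t * x))
    (bound := fun _ => C) (Metric.ball_mem_nhds x one_pos) ?_ ?_ ?_ ?_ ?_ ?_).2
  · exact Filter.Eventually.of_forall fun y => (Continuous.aestronglyMeasurable (by fun_prop))
  · exact Continuous.intervalIntegrable (by fun_prop) _ _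
  · exact Continuous.aestronglyMeasurable (by fun_prop)
  · refine Filter.Eventually.of_forall fun t ht y hy => ?_
    rw [uIoc_of_le zero_le_one] at ht
    have h1 : |y - x| < 1 := by simpa [Real.dist_eq] using hy
    have h0 : |y| ≤ |x| + 1 := by
      have := abs_sub_abs_le_abs_sub y x
      linarith
    have h2 : |t * y| ≤ |x| + 1 := by
      rw [abs_mul, abs_of_pos ht.1]
      calc t * |y| ≤ 1 * |y| := mul_le_mul_of_nonneg_right ht.2 (abs_nonneg _)
        _ ≤ _ := by linarith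
    have h3 := hC (t * y) (abs_le.1 h2)
    rw [norm_mul]
    have h4 : ‖t ^ (k+1)‖ ≤ 1 := by
      rw [norm_pow, Real.norm_eq_abs, abs_of_pos ht.1]
      exact pow_le_one₀ ht.1.le ht.2
    calc ‖t ^ (k+1)‖ * ‖f' (t * y)‖ ≤ 1 * ‖f' (t * y)‖ :=
          mul_le_mul_of_nonneg_right h4 (norm_nonneg _)
      _ ≤ C := by linarith
  · exact intervalIntegrable_const
  · refine Filter.Eventually.of_forall fun t ht y hy => ?_
    have h5 : HasDerivAt (fun y : ℝ => t * y) t y := by
      simpa using (hasDerivAt_id y).const_mul t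
    have h6 := (HasDerivAt.comp y (hf (t*y)) h5).const_mul (t^k)
    refine HasDerivAt.congr_deriv h6 ?_
    ring

theorem morse_parc {f : ℝ → ℝ} (hf : Continuous f) (k : ℕ) :
    Continuous (fun x => ∫ t in (0:ℝ)..1, t ^ k * f (t * x)) := by
  refine intervalIntegral.continuous_parametric_intervalIntegral_of_continuous' ?_ _ _
  fun_prop

/-- Hadamard quotients. -/
theorem morse_had {r z R : ℝ → ℝ} (h : IsMeridian r z R) {m : ℝ} (h00 : r 0 = m) :
    ∃ S S' H H' : ℝ → ℝ, (∀ φ, HasDerivAt S (S' φ) φ) ∧ Continuous S' ∧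
      (∀ φ, HasDerivAt H (H' φ) φ) ∧ Continuous H' ∧ (∀ φ, φ * S φ = sin φ) ∧
      (∀ φ, φ ^ 2 * H φ = m ^ 2 - r φ ^ 2) ∧
      (∀ φ ∈ Icc (-(π/2)) (π/2), 0 < S φ) ∧ (H 0 = r 0 * R 0 * S 0) ∧
      ((∀ φ ∈ Ioo (-(π/2)) (π/2), 0 < r φ) → ∀ φ ∈ Icc (-(π/2)) (π/2), 0 < H φ) := by
  have hR1 : Continuous R := h.smooth.continuous
  have hR2 : ∀ x, HasDerivAt R (deriv R x) x := fun x =>
    ((h.smooth.differentiable (by simp)) x).hasDerivAt
  have hR3 : Continuous (deriv R) := h.smooth.continuous_deriv (by simp)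
  have hrc : Continuous r := continuous_iff_continuousAt.2 fun x => (h.dr x).continuousAt
  obtain ⟨S, hSdef⟩ : ∃ S : ℝ → ℝ, S = fun φ => ∫ t in (0:ℝ)..1, t ^ 0 * cos (t * φ) := ⟨_, rfl⟩
  obtain ⟨S', hS'def⟩ : ∃ S' : ℝ → ℝ, S' = fun φ => ∫ t in (0:ℝ)..1, t ^ 1 * (-sin (t * φ)) :=
    ⟨_, rfl⟩
  have hS : ∀ φ, HasDerivAt S (S' φ) φ := by
    intro φ
    rw [hSdef, hS'def]
    exact morse_par (f := cos) (f' := fun x => -sin x) (fun x => hasDerivAt_cos x)
      (by fun_prop) 0 φ
  have hS'c : Continuous S' := by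
    rw [hS'def]
    exact morse_parc (f := fun x => -sin x) (by fun_prop) 1
  have hSc : Continuous S := continuous_iff_continuousAt.2 fun x => (hS x).continuousAt
  obtain ⟨f, hfdef⟩ : ∃ f : ℝ → ℝ, f = fun u => r u * R u * S u := ⟨_, rfl⟩
  obtain ⟨f', hf'def⟩ : ∃ f' : ℝ → ℝ, f' = fun u => ((-(R u * sin u)) * R u + r u * deriv R u) * S u
    + r u * R u * S' u := ⟨_, rfl⟩
  have hf : ∀ x, HasDerivAt f (f' x) x := by
    intro x
    rw [hfdef, hf'def]
    exact ((h.dr x).mul (hR2 x)).mul (hS x)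
  have hf'c : Continuous f' := by
    rw [hf'def]
    fun_prop
  have hfc : Continuous f := continuous_iff_continuousAt.2 fun x => (hf x).continuousAt
  have hxS : ∀ φ, φ * S φ = sin φ := by
    intro φ
    have h1 : ∫ t in (0:ℝ)..1, cos (t * φ) * φ = sin (1 * φ) - sin (0 * φ) := by
      refine intervalIntegral.integral_eq_sub_of_hasDerivAt (f := fun t => sin (t * φ)) ?_ ?_
      · intro t _
        have h5 : HasDerivAt (fun t : ℝ => t * φ) φ t := by
          simpa using (hasDerivAt_id t).mul_const φ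
        exact h5.sin
      · exact Continuous.intervalIntegrable (by fun_prop) _ _
    rw [intervalIntegral.integral_mul_const] at h1
    rw [hSdef]
    simp only [pow_zero, one_mul, zero_mul, sin_zero, sub_zero] at h1 ⊢
    rw [mul_comm]; exact h1
  have hSpos : ∀ φ ∈ Icc (-(π/2)) (π/2), 0 < S φ := by
    intro φ hφ
    rw [hSdef]
    refine intervalIntegral.intervalIntegral_pos_of_pos_on
      (Continuous.intervalIntegrable (by fun_prop) _ _) ?_ one_pos
    intro t ht
    simp only [pow_zero, one_mul]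
    refine cos_pos_of_mem_Ioo ⟨?_, ?_⟩
    · nlinarith [hφ.1, hφ.2, ht.1, ht.2, pi_pos]
    · nlinarith [hφ.1, hφ.2, ht.1, ht.2, pi_pos]
  refine ⟨S, S', fun φ => 2 * ∫ t in (0:ℝ)..1, t ^ 1 * f (t * φ),
    fun φ => 2 * ∫ t in (0:ℝ)..1, t ^ (1+1) * f' (t * φ), hS, hS'c, ?_, ?_, hxS, ?_, hSpos, ?_, ?_⟩
  · intro φ
    exact (morse_par hf hf'c 1 φ).const_mul 2
  · exact continuous_const.mul (morse_parc hf'c _)
  · intro φ
    have h1 : ∫ t in (0:ℝ)..1, (2 * φ ^ 2) * (t ^ 1 * f (t * φ)) =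
        (m ^ 2 - r (1 * φ) ^ 2) - (m ^ 2 - r (0 * φ) ^ 2) := by
      refine intervalIntegral.integral_eq_sub_of_hasDerivAt (f := fun t => m ^ 2 - r (t * φ) ^ 2) ?_ ?_
      · intro t _
        have h5 : HasDerivAt (fun t : ℝ => t * φ) φ t := by
          simpa using (hasDerivAt_id t).mul_const φ
        have h6 := (((HasDerivAt.comp t (h.dr (t * φ)) h5).pow 2).const_sub (m^2))
        refine HasDerivAt.congr_deriv h6 ?_
        have h7 := hxS (t * φ)
        rw [hfdef]
        simp only [Function.comp_def, Nat.cast_ofNat, Nat.add_one_sub_one, pow_one]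
        rw [← h7]
        ring
      · exact Continuous.intervalIntegrable (by fun_prop) _ _
    rw [intervalIntegral.integral_const_mul, one_mul, zero_mul, h00] at h1
    dsimp only
    linarith
  · dsimp only
    have : ∫ t in (0:ℝ)..1, t ^ 1 * f (t * 0) = (1/2) * f 0 := by
      simp only [mul_zero, pow_one, intervalIntegral.integral_mul_const, integral_id]
      norm_num
    rw [this, hfdef]
    ring
  · intro hr φ hφ
    dsimp only
    refine mul_pos two_pos ?_
    refine intervalIntegral.intervalIntegral_pos_of_pos_on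
      (Continuous.intervalIntegrable (by fun_prop) _ _) ?_ one_pos
    intro t ht
    have ht' : t * φ ∈ Ioo (-(π/2)) (π/2) := by
      constructor
      · nlinarith [hφ.1, hφ.2, ht.1, ht.2, pi_pos]
      · nlinarith [hφ.1, hφ.2, ht.1, ht.2, pi_pos]
    rw [hfdef]
    dsimp only
    have a1 := hr _ ht'
    have a2 := h.pos (t * φ)
    have a3 := hSpos _ ⟨ht'.1.le, ht'.2.le⟩
    have a4 := ht.1
    positivity

/-- `r` is positive on the right half of the meridian. -/
theorem morse_rpos {r z R : ℝ → ℝ} (h : IsMeridian r z R) :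
    r (π/2) = 0 ∧ r (-(π/2)) = 0 ∧ ∀ φ ∈ Ioo (-(π/2)) (π/2), 0 < r φ := by
  have hrc : Continuous r := continuous_iff_continuousAt.2 fun x => (h.dr x).continuousAt
  have h1 : r (π/2) = 0 := by
    have := h.symr (π/2)
    rw [show π - π/2 = π/2 by ring] at this
    linarith
  have h2 : r (-(π/2)) = 0 := by
    have h3 := h.symr (-(π/2))
    have h4 := h.perr (-(π/2))
    rw [show π - -(π/2) = -(π/2) + 2 * π by ring] at h3
    linarith
  refine ⟨h1, h2, ?_⟩
  intro φ hφ
  rcases le_total 0 φ with h0 | h0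
  · have hanti : StrictAntiOn r (Icc 0 (π/2)) := by
      refine strictAntiOn_of_deriv_neg (convex_Icc _ _) hrc.continuousOn ?_
      intro x hx
      rw [interior_Icc] at hx
      rw [(h.dr x).deriv]
      have := sin_pos_of_pos_of_lt_pi hx.1 (by linarith [hx.2, pi_pos])
      have := mul_pos (h.pos x) this
      linarith
    have := hanti ⟨h0, hφ.2.le⟩ ⟨by positivity, le_refl _⟩ hφ.2
    linarith
  · have hmono : StrictMonoOn r (Icc (-(π/2)) 0) := by
      refine strictMonoOn_of_deriv_pos (convex_Icc _ _) hrc.continuousOn ?_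
      intro x hx
      rw [interior_Icc] at hx
      rw [(h.dr x).deriv]
      have := sin_neg_of_neg_of_neg_pi_lt hx.2 (by linarith [hx.1, pi_pos])
      have := mul_neg_of_pos_of_neg (h.pos x) this
      linarith
    have := hmono ⟨le_refl _, by linarith [pi_pos]⟩ ⟨hφ.1.le, h0⟩ hφ.1
    linarith


-- TARGET: prove this (put auxiliary lemmas between the ASSUMED END line and the theorem)

theorem morse {r z R : ℝ → ℝ} (h : IsMeridian r z R) {m : ℝ} (hm : 0 < m)
    (h0 : ∀ φ, r φ + r (-φ) = 2 * m * cos φ) : ∃ Φ Q : ℝ → ℝ, IsUnif r R m Φ Q ∧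
      (∀ ψ ∈ Ioo (-(π / 2)) (π / 2), ∃ x ∈ Ioo (-m) m, Φ x = ψ) := by
  have h00 : r 0 = m := by
    have := h0 0
    simp at this
    linarith
  have hpi : 0 < π / 2 := by positivity
  obtain ⟨hr1, hr2, hrpos⟩ := morse_rpos h
  obtain ⟨S, S', H, H', hS, hS'c, hH, hH'c, hxS, hF, hSpos, hH0, hHpos0⟩ := morse_had h h00
  have hHpos := hHpos0 hrpos
  have hHc : Continuous H := continuous_iff_continuousAt.2 fun x => (hH x).continuousAt
  have hSc : Continuous S := continuous_iff_continuousAt.2 fun x => (hS x).continuousAt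
  set I := Icc (-(π/2)) (π/2) with hI
  set J := Ioo (-(π/2)) (π/2) with hJ
  have hJI : J ⊆ I := Ioo_subset_Icc_self
  obtain ⟨ξ, hξdef⟩ : ∃ ξ : ℝ → ℝ, ξ = fun φ => φ * √(H φ) := ⟨_, rfl⟩
  have hξc : Continuous ξ := by rw [hξdef]; fun_prop
  have hξsq : ∀ φ ∈ I, ξ φ ^ 2 = m ^ 2 - r φ ^ 2 := by
    intro φ hφ
    rw [← hF φ, hξdef]
    dsimp only
    rw [mul_pow, Real.sq_sqrt (hHpos φ hφ).le]
  -- the key derivative identity
  have hkey : ∀ φ, H φ + φ * H' φ / 2 = r φ * R φ * S φ := by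
    intro φ
    by_cases hφ : φ = 0
    · subst hφ
      rw [hH0]; ring
    · have e1 : HasDerivAt (fun φ => φ ^ 2 * H φ) (2 * φ * H φ + φ ^ 2 * H' φ) φ := by
        have := (hasDerivAt_pow 2 φ).mul (hH φ)
        refine HasDerivAt.congr_deriv this ?_
        simp
      have e2 : HasDerivAt (fun φ => φ ^ 2 * H φ) (-(2 * r φ * (-(R φ * sin φ)))) φ := by
        have h6 := (((h.dr φ).pow 2).const_sub (m^2))
        have h7 : (fun φ => φ ^ 2 * H φ) = fun φ => m ^ 2 - r φ ^ 2 := funext hF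
        rw [h7]
        refine HasDerivAt.congr_deriv h6 ?_
        simp
      have e3 := e1.unique e2
      rw [← hxS φ] at e3
      have e4 : (2 * φ) * (H φ + φ * H' φ / 2) = (2 * φ) * (r φ * R φ * S φ) := by
        linear_combination e3
      exact mul_left_cancel₀ (by positivity) e4
  have hξd : ∀ φ ∈ J, HasDerivAt ξ (r φ * R φ * S φ / √(H φ)) φ := by
    intro φ hφ
    have hp := hHpos φ (hJI hφ)
    rw [hξdef]
    have := (hasDerivAt_id φ).mul ((hH φ).sqrt hp.ne')
    refine HasDerivAt.congr_deriv this ?_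
    rw [← hkey φ]
    have hs : 0 < √(H φ) := Real.sqrt_pos.2 hp
    have hs2 : √(H φ) * √(H φ) = H φ := Real.mul_self_sqrt hp.le
    simp only [id_eq, one_mul]
    field_simp
    rw [Real.sq_sqrt hp.le]
    ring
  have hξmono : StrictMonoOn ξ I := by
    refine strictMonoOn_of_deriv_pos (convex_Icc _ _) hξc.continuousOn ?_
    intro x hx
    rw [interior_Icc] at hx
    rw [(hξd x hx).deriv]
    have a1 := hrpos x hx
    have a2 := h.pos x
    have a3 := hSpos x (hJI hx)
    have a4 := Real.sqrt_pos.2 (hHpos x (hJI hx))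
    positivity
  have hIr : (π/2) ∈ I := ⟨by linarith, le_refl _⟩
  have hIl : -(π/2) ∈ I := ⟨le_refl _, by linarith⟩
  have hξr : ξ (π/2) = m := by
    have e1 := hξsq _ hIr
    rw [hr1] at e1
    have e2 : 0 < ξ (π/2) := by
      rw [hξdef]; exact mul_pos hpi (Real.sqrt_pos.2 (hHpos _ hIr))
    nlinarith
  have hξl : ξ (-(π/2)) = -m := by
    have e1 := hξsq _ hIl
    rw [hr2] at e1
    have e2 : ξ (-(π/2)) < 0 := by
      rw [hξdef]; exact mul_neg_of_neg_of_pos (by linarith) (Real.sqrt_pos.2 (hHpos _ hIl))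
    nlinarith
  -- the image
  have himg : ∀ x ∈ Icc (-m) m, ∃ φ ∈ I, ξ φ = x := by
    intro x hx
    have := intermediate_value_Icc (show -(π/2) ≤ π/2 by linarith) hξc.continuousOn
    rw [hξl, hξr] at this
    exact this hx
  choose! Φ hΦI hΦ using himg
  have hΦξ : ∀ φ ∈ I, Φ (ξ φ) = φ ∧ ξ φ ∈ Icc (-m) m := by
    intro φ hφ
    have e1 : ξ φ ∈ Icc (-m) m := by
      constructor
      · rw [← hξl]; exact hξmono.monotoneOn hIl hφ hφ.1
      · rw [← hξr]; exact hξmono.monotoneOn hφ hIr hφ.2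
    exact ⟨hξmono.injOn (hΦI _ e1) hφ (hΦ _ e1), e1⟩
  have hΦmono : MonotoneOn Φ (Icc (-m) m) := by
    intro x hx y hy hxy
    by_contra hcon
    rw [not_le] at hcon
    have := hξmono (hΦI y hy) (hΦI x hx) hcon
    rw [hΦ x hx, hΦ y hy] at this
    linarith
  have hΦimg : Φ '' (Icc (-m) m) = I := by
    ext φ
    constructor
    · rintro ⟨x, hx, rfl⟩; exact hΦI x hx
    · intro hφ
      exact ⟨ξ φ, (hΦξ φ hφ).2, (hΦξ φ hφ).1⟩
  have hΦJ : ∀ x ∈ Ioo (-m) m, Φ x ∈ J := by
    intro x hx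
    have e1 := hΦI x ⟨hx.1.le, hx.2.le⟩
    have e2 := hΦ x ⟨hx.1.le, hx.2.le⟩
    constructor
    · rcases eq_or_lt_of_le e1.1 with e3 | e3
      · rw [← e3, hξl] at e2; linarith [hx.1]
      · exact e3
    · rcases eq_or_lt_of_le e1.2 with e3 | e3
      · rw [e3, hξr] at e2; linarith [hx.2]
      · exact e3
  have hΦr : Φ m = π/2 := by
    have := (hΦξ _ hIr).1
    rwa [hξr] at this
  have hΦl : Φ (-m) = -(π/2) := by
    have := (hΦξ _ hIl).1
    rwa [hξl] at this
  have hΦcat : ∀ x ∈ Ioo (-m) m, ContinuousAt Φ x := by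
    intro x hx
    refine continuousAt_of_monotoneOn_of_image_mem_nhds hΦmono (Icc_mem_nhds hx.1 hx.2) ?_
    rw [hΦimg]
    exact Icc_mem_nhds (hΦJ x hx).1 (hΦJ x hx).2
  have hΦcont : ContinuousOn Φ (Icc (-m) m) := by
    intro x hx
    rcases eq_or_lt_of_le hx.1 with e1 | e1
    · subst e1
      have : ContinuousWithinAt Φ (Ici (-m)) (-m) := by
        refine continuousWithinAt_right_of_monotoneOn_of_image_mem_nhdsWithin hΦmono
          (Icc_mem_nhdsGE (by linarith)) ?_
        rw [hΦimg, hΦl]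
        exact Icc_mem_nhdsGE (by linarith)
      exact this.mono Icc_subset_Ici_self
    · rcases eq_or_lt_of_le hx.2 with e2 | e2
      · subst e2
        have : ContinuousWithinAt Φ (Iic x) x := by
          refine continuousWithinAt_left_of_monotoneOn_of_image_mem_nhdsWithin hΦmono
            (Icc_mem_nhdsLE (by linarith)) ?_
          rw [hΦimg, hΦr]
          exact Icc_mem_nhdsLE (by linarith)
        exact this.mono Icc_subset_Iic_self
      · exact (hΦcat x ⟨e1, e2⟩).continuousWithinAt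
  have hΦd : ∀ x ∈ Ioo (-m) m, HasDerivAt Φ ((√(H (Φ x)) / S (Φ x)) / (r (Φ x) * R (Φ x))) x := by
    intro x hx
    have e1 := hΦJ x hx
    have a1 := hrpos _ e1
    have a2 := h.pos (Φ x)
    have a3 := hSpos _ (hJI e1)
    have a4 := Real.sqrt_pos.2 (hHpos _ (hJI e1))
    have e2 := HasDerivAt.of_local_left_inverse (hΦcat x hx) (hξd _ e1) (by positivity)
      (by
        filter_upwards [Icc_mem_nhds hx.1 hx.2] with y hy
        exact hΦ y hy)
    refine HasDerivAt.congr_deriv e2 ?_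
    field_simp
  refine ⟨Φ, fun x => √(H (Φ x)) / S (Φ x), ⟨hΦJ, ?_, ?_, ?_, ?_, ?_, hΦd⟩, ?_⟩
  · intro x hx
    have e1 := hξsq _ (hJI (hΦJ x hx))
    rw [hΦ x ⟨hx.1.le, hx.2.le⟩] at e1
    linarith
  · intro x hx
    have e1 := hΦJ x hx
    have a3 := hSpos _ (hJI e1)
    have e2 := hΦ x ⟨hx.1.le, hx.2.le⟩
    rw [← hxS (Φ x)]
    rw [hξdef] at e2
    dsimp only at e2
    field_simp
    exact e2
  · intro x hx
    have e1 := hΦI x hx
    have a3 := hSpos _ e1
    have a4 := Real.sqrt_pos.2 (hHpos _ e1)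
    positivity
  · have e1 : ContinuousOn (fun φ => √(H φ) / S φ) I :=
      ContinuousOn.div (by fun_prop) hSc.continuousOn (fun φ hφ => (hSpos φ hφ).ne')
    exact e1.comp hΦcont (fun x hx => hΦI x hx)
  · -- C^1
    have hS1 : ContDiff ℝ 1 S := by
      refine contDiff_one_iff_deriv.2 ⟨fun x => (hS x).differentiableAt, ?_⟩
      have : deriv S = S' := funext fun x => (hS x).deriv
      rw [this]; exact hS'c
    have hH1 : ContDiff ℝ 1 H := by
      refine contDiff_one_iff_deriv.2 ⟨fun x => (hH x).differentiableAt, ?_⟩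
      have : deriv H = H' := funext fun x => (hH x).deriv
      rw [this]; exact hH'c
    have hW1 : ContDiffOn ℝ 1 (fun φ => √(H φ) / S φ) I :=
      ContDiffOn.div (ContDiffOn.sqrt hH1.contDiffOn (fun φ hφ => (hHpos φ hφ).ne'))
        hS1.contDiffOn (fun φ hφ => (hSpos φ hφ).ne')
    have hΦ1 : ContDiffOn ℝ 1 Φ (Ioo (-m) m) := by
      rw [show (1 : WithTop ℕ∞) = 0 + 1 by simp, contDiffOn_succ_iff_deriv_of_isOpen isOpen_Ioo]
      refine ⟨fun x hx => (hΦd x hx).differentiableAt.differentiableWithinAt, by simp, ?_⟩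
      rw [contDiffOn_zero]
      have e1 : ContinuousOn (fun x => (√(H (Φ x)) / S (Φ x)) / (r (Φ x) * R (Φ x)))
          (Ioo (-m) m) := by
        have hΦc' : ContinuousOn Φ (Ioo (-m) m) := hΦcont.mono Ioo_subset_Icc_self
        have hrc : Continuous r := continuous_iff_continuousAt.2 fun x => (h.dr x).continuousAt
        have hRc : Continuous R := h.smooth.continuous
        refine ContinuousOn.div (ContinuousOn.div ?_ ?_ ?_) ?_ ?_
        · exact (Real.continuous_sqrt.comp hHc).comp_continuousOn hΦc'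
        · exact hSc.comp_continuousOn hΦc'
        · exact fun x hx => (hSpos _ (hJI (hΦJ x hx))).ne'
        · exact (hrc.comp_continuousOn hΦc').mul (hRc.comp_continuousOn hΦc')
        · exact fun x hx => (mul_pos (hrpos _ (hΦJ x hx)) (h.pos _)).ne'
      exact e1.congr fun x hx => (hΦd x hx).deriv
    exact hW1.comp hΦ1 (fun x hx => hJI (hΦJ x hx))
  · intro ψ hψ
    obtain ⟨e1, e2⟩ := hΦξ ψ (hJI hψ)
    refine ⟨ξ ψ, ⟨?_, ?_⟩, e1⟩
    · rw [← hξl]; exact hξmono hIl (hJI hψ) hψ.1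
    · rw [← hξr]; exact hξmono (hJI hψ) hIr hψ.2


end J_morse

alias morse := J_morse.morse

end Pool.Agent.Helper10.ARM
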