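import Mathlib
import Pool.Agent.Helper10.ARM.Base
import Pool.Agent.Helper10.ARM.J_g_surf

open Set Filter Topology Real
open scoped RealInnerProductSpace ContDiff

noncomputable section

namespace Pool.Agent.Helper10.ARM

namespace J_geod


-- TARGET: prove this (put auxiliary lemmas between the ASSUMED END line and the theorem)

theorem g_vec_deriv {f g h : ℝ → ℝ} {f' g' h' t : ℝ} (hf : HasDerivAt f f' t)
    (hg : HasDerivAt g g' t) (hh : HasDerivAt h h' t) :
    HasDerivAt (fun t => (!₂[f t, g t, h t] : E3)) !₂[f', g', h'] t := by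
  have h1 := (hf.smul_const (!₂[1, 0, 0] : E3)).add
    ((hg.smul_const (!₂[0, 1, 0] : E3)).add (hh.smul_const (!₂[0, 0, 1] : E3)))
  have e1 : (fun t => (!₂[f t, g t, h t] : E3)) = (fun t => f t • (!₂[1, 0, 0] : E3)) +
      ((fun t => g t • (!₂[0, 1, 0] : E3)) + fun t => h t • (!₂[0, 0, 1] : E3)) := by
    funext s
    ext i
    fin_cases i <;> simp
  have e2 : (!₂[f', g', h'] : E3) = f' • (!₂[1, 0, 0] : E3) +
      (g' • (!₂[0, 1, 0] : E3) + h' • (!₂[0, 0, 1] : E3)) := by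
    ext i
    fin_cases i <;> simp
  rw [e1, e2]
  exact h1

theorem g_vec_cont {f g h : ℝ → ℝ} (hf : Continuous f)
    (hg : Continuous g) (hh : Continuous h) :
    Continuous (fun t => (!₂[f t, g t, h t] : E3)) := by
  have e1 : (fun t => (!₂[f t, g t, h t] : E3)) = (fun t => f t • (!₂[1, 0, 0] : E3) +
      (g t • (!₂[0, 1, 0] : E3) + h t • (!₂[0, 0, 1] : E3))) := by
    funext s
    ext i
    fin_cases i <;> simp
  rw [e1]
  exact (hf.smul continuous_const).add ((hg.smul continuous_const).add (hh.smul continuous_const))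

/-- velocity -/
def vel (B A φ Θ : ℝ → ℝ) (u : ℝ) : E3 :=
  !₂[B u * sin (φ u) * cos (Θ u) - A u * sin (Θ u),
    B u * sin (φ u) * sin (Θ u) + A u * cos (Θ u), -(B u * cos (φ u))]

theorem vel_deriv {B A φ Θ : ℝ → ℝ} {u φ' Θ' : ℝ} (hB : HasDerivAt B (A u * Θ' * sin (φ u)) u)
    (hA : HasDerivAt A (-(B u * sin (φ u) * Θ')) u) (hφ : HasDerivAt φ φ' u)
    (hΘ : HasDerivAt Θ Θ' u) :
    HasDerivAt (vel B A φ Θ) ((B u * φ' - A u * cos (φ u) * Θ') • nrm (φ u) (Θ u)) u := by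
  have h0 := ((hB.mul hφ.sin).mul hΘ.cos).sub (hA.mul hΘ.sin)
  have h1 := ((hB.mul hφ.sin).mul hΘ.sin).add (hA.mul hΘ.cos)
  have h2 := (hB.mul hφ.cos).neg
  have h3 : HasDerivAt (vel B A φ Θ) _ u := g_vec_deriv h0 h1 h2
  have hsc : sin (φ u) ^ 2 + cos (φ u) ^ 2 = 1 := sin_sq_add_cos_sq _
  convert h3 using 1
  ext i
  fin_cases i
  · simp [nrm]
    linear_combination (-(A u * Θ' * cos (Θ u))) * hsc
  · simp [nrm]
    linear_combination (-(A u * Θ' * sin (Θ u))) * hsc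
  · simp [nrm]
    ring

theorem pos_deriv {r z B A φ Θ : ℝ → ℝ} {u q Θ' : ℝ}
    (hr : HasDerivAt (fun u => r (φ u)) (q * (sin (φ u) * B u)) u)
    (hz : HasDerivAt (fun u => z (φ u)) (-(q * (B u * cos (φ u)))) u)
    (hΘ : HasDerivAt Θ Θ' u) (hq : r (φ u) * Θ' = q * A u) :
    HasDerivAt (fun u => pos r z (φ u) (Θ u)) (q • vel B A φ Θ u) u := by
  have h0 := hr.mul hΘ.cos
  have h1 := hr.mul hΘ.sin
  have h3 : HasDerivAt (fun u => pos r z (φ u) (Θ u)) _ u := g_vec_deriv h0 h1 hz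
  convert h3 using 1
  ext i
  fin_cases i
  · simp [vel]
    linear_combination (sin (Θ u)) * hq
  · simp [vel]
    linear_combination (-cos (Θ u)) * hq
  · simp [vel]

theorem vel_norm {B A φ Θ : ℝ → ℝ} {u : ℝ} (h : B u ^ 2 + A u ^ 2 = 1) :
    ‖vel B A φ Θ u‖ = 1 := by
  rw [EuclideanSpace.norm_eq, Fin.sum_univ_three]
  have h1 : sin (φ u) ^ 2 + cos (φ u) ^ 2 = 1 := sin_sq_add_cos_sq _
  have h2 : sin (Θ u) ^ 2 + cos (Θ u) ^ 2 = 1 := sin_sq_add_cos_sq _
  rw [Real.sqrt_eq_one]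
  simp only [vel, Real.norm_eq_abs, sq_abs]
  simp
  linear_combination h + B u ^ 2 * h1 + (B u ^ 2 * sin (φ u) ^ 2 + A u ^ 2) * h2

theorem time_change {q : ℝ → ℝ} (hq : Continuous q) {q0 : ℝ} (hq0 : 0 < q0) (hqq : ∀ u, q0 ≤ q u) :
    ∃ U : ℝ → ℝ, StrictMono U ∧ U 0 = 0 ∧ Continuous U ∧ ∀ t, HasDerivAt U (q (U t))⁻¹ t := by
  set T : ℝ → ℝ := fun u => ∫ s in (0 : ℝ)..u, q s with hT
  have hTd : ∀ u, HasDerivAt T (q u) u := fun u => (hq.integral_hasStrictDerivAt 0 u).hasDerivAt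
  have hT0 : T 0 = 0 := by simp [hT]
  have hTc : Continuous T := continuous_iff_continuousAt.2 fun u => (hTd u).continuousAt
  have hmono : StrictMono T := by
    refine strictMono_of_deriv_pos fun u => ?_
    rw [(hTd u).deriv]
    exact lt_of_lt_of_le hq0 (hqq u)
  have hm2 : Monotone (fun u => T u - q0 * u) := by
    have hd : ∀ u, HasDerivAt (fun u => T u - q0 * u) (q u - q0) u := by
      intro u
      exact ((hTd u).sub ((hasDerivAt_id' u).const_mul q0)).congr_deriv (by ring)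
    refine monotone_of_deriv_nonneg (fun u => (hd u).differentiableAt) fun u => ?_
    rw [(hd u).deriv]
    linarith [hqq u]
  have hsurj : Function.Surjective T := by
    refine hTc.surjective ?_ ?_
    · refine tendsto_atTop_mono' atTop ?_ (tendsto_id.const_mul_atTop hq0)
      filter_upwards [eventually_ge_atTop (0 : ℝ)] with u hu
      have := hm2 hu
      simp only [hT0, mul_zero, sub_zero] at this
      simp only [id]
      linarith
    · refine tendsto_atBot_mono' atBot ?_ (tendsto_id.const_mul_atBot hq0)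
      filter_upwards [eventually_le_atBot (0 : ℝ)] with u hu
      have := hm2 hu
      simp only [hT0, mul_zero, sub_zero] at this
      simp only [id]
      linarith
  set e : ℝ ≃o ℝ := hmono.orderIsoOfSurjective T hsurj with he
  have heT : ∀ u, e u = T u := fun u => rfl
  have hTU : ∀ t, T (e.symm t) = t := by
    intro t
    rw [← heT]
    exact e.apply_symm_apply t
  refine ⟨e.symm, e.symm.strictMono, ?_, e.symm.continuous, ?_⟩
  · apply hmono.injective
    rw [hTU, hT0]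
  · intro t
    refine HasDerivAt.of_local_left_inverse e.symm.continuous.continuousAt (hTd _)
      (lt_of_lt_of_le hq0 (hqq _)).ne' (Filter.Eventually.of_forall hTU)

theorem geod {r z R : ℝ → ℝ} (h : IsMeridian r z R) {m : ℝ} (hm : 0 < m)
    (hr : ∀ φ ∈ Ioo (-(π / 2)) (π / 2), 0 < r φ) {Φ Q : ℝ → ℝ}
    (hu : IsUnif r R m Φ Q) {a : ℝ} (ha : 0 < a) (ham : a < m) :
    ∃ (c : ℝ → E3) (U Θ : ℝ → ℝ), IsGeodesic (surf r z) c ∧ StrictMono U ∧ U 0 = 0 ∧ Θ 0 = 0 ∧
      (∀ t, c t = pos r z (Φ (√(m ^ 2 - a ^ 2) * cos (U t))) (Θ (U t))) ∧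
      ∀ u, HasDerivAt Θ (a * Q (√(m ^ 2 - a ^ 2) * cos u) /
        (m ^ 2 - (m ^ 2 - a ^ 2) * cos u ^ 2)) u := by
  set b : ℝ := √(m ^ 2 - a ^ 2) with hb
  have hb2 : b ^ 2 = m ^ 2 - a ^ 2 := Real.sq_sqrt (by nlinarith)
  have hb0 : 0 ≤ b := Real.sqrt_nonneg _
  have hbm : b < m := by
    by_contra hcon
    push Not at hcon
    nlinarith
  have hxI : ∀ u, b * cos u ∈ Ioo (-m) m := by
    intro u
    have h1 := neg_one_le_cos u
    have h2 := cos_le_one u
    constructor <;> nlinarith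
  have hxI' : ∀ u, b * cos u ∈ Icc (-m) m := fun u => Ioo_subset_Icc_self (hxI u)
  -- q
  have hqc : Continuous (fun u => Q (b * cos u)) :=
    hu.Qcont.comp_continuous (continuous_const.mul continuous_cos) hxI'
  obtain ⟨x0, hx0, hmin⟩ := isCompact_Icc.exists_isMinOn
    (⟨b * cos 0, hxI' 0⟩ : (Icc (-m) m).Nonempty) hu.Qcont
  obtain ⟨U, hUm, hU0, hUc, hUd⟩ := time_change hqc (hu.Qpos x0 hx0) (fun u => hmin (hxI' u))
  -- ρ
  have hρpos : ∀ u, 0 < r (Φ (b * cos u)) := fun u => hr _ (hu.mem _ (hxI u))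
  have hρsq : ∀ u, r (Φ (b * cos u)) ^ 2 = m ^ 2 - (m ^ 2 - a ^ 2) * cos u ^ 2 := by
    intro u
    rw [hu.rsq _ (hxI u), mul_pow, hb2]
  have hρsq' : ∀ u, r (Φ (b * cos u)) ^ 2 = a ^ 2 + (b * sin u) ^ 2 := by
    intro u
    rw [hρsq u]
    have := sin_sq_add_cos_sq u
    rw [mul_pow, hb2]
    linear_combination (-(m ^ 2 - a ^ 2)) * this
  have hden : ∀ u, m ^ 2 - (m ^ 2 - a ^ 2) * cos u ^ 2 ≠ 0 := by
    intro u
    rw [← hρsq u]
    exact (pow_pos (hρpos u) 2).ne'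
  have hΘc : Continuous (fun u => a * Q (b * cos u) / (m ^ 2 - (m ^ 2 - a ^ 2) * cos u ^ 2)) :=
    (continuous_const.mul hqc).div (by fun_prop) hden
  set Θ : ℝ → ℝ := fun u => ∫ s in (0 : ℝ)..u,
    a * Q (b * cos s) / (m ^ 2 - (m ^ 2 - a ^ 2) * cos s ^ 2) with hΘdef
  have hΘd : ∀ u, HasDerivAt Θ (a * Q (b * cos u) / (m ^ 2 - (m ^ 2 - a ^ 2) * cos u ^ 2)) u :=
    fun u => (hΘc.integral_hasStrictDerivAt 0 u).hasDerivAt
  have hxd : ∀ u, HasDerivAt (fun u => b * cos u) (b * -sin u) u :=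
    fun u => (hasDerivAt_cos u).const_mul b
  set φ : ℝ → ℝ := fun u => Φ (b * cos u) with hφdef
  have hφd : ∀ u, HasDerivAt φ (Q (b * cos u) / (r (φ u) * R (φ u)) * (b * -sin u)) u :=
    fun u => (hu.Φder _ (hxI u)).comp u (hxd u)
  have hsQ : ∀ u, sin (φ u) * Q (b * cos u) = b * cos u := fun u => hu.sinQ _ (hxI u)
  have hRpos : ∀ u, 0 < R (φ u) := fun u => h.pos _
  set B : ℝ → ℝ := fun u => b * sin u / r (φ u) with hBdef
  set A : ℝ → ℝ := fun u => a / r (φ u) with hAdef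
  have hρd : ∀ u, HasDerivAt (fun u => r (φ u)) (Q (b * cos u) * (sin (φ u) * B u)) u := by
    intro u
    have h0 : HasDerivAt (fun u => r (φ u)) (-(R (φ u) * sin (φ u)) *
        (Q (b * cos u) / (r (φ u) * R (φ u)) * (b * -sin u))) u := (h.dr (φ u)).comp u (hφd u)
    refine h0.congr_deriv ?_
    simp only [hBdef]
    have h1 := (hρpos u).ne'
    have h2 := (hRpos u).ne'
    field_simp
  have hzd : ∀ u, HasDerivAt (fun u => z (φ u)) (-(Q (b * cos u) * (B u * cos (φ u)))) u := by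
    intro u
    have h0 : HasDerivAt (fun u => z (φ u)) ((R (φ u) * cos (φ u)) *
        (Q (b * cos u) / (r (φ u) * R (φ u)) * (b * -sin u))) u := (h.dz (φ u)).comp u (hφd u)
    refine h0.congr_deriv ?_
    simp only [hBdef]
    have h1 := (hρpos u).ne'
    have h2 := (hRpos u).ne'
    field_simp
  have hΘq : ∀ u, r (φ u) * (a * Q (b * cos u) / (m ^ 2 - (m ^ 2 - a ^ 2) * cos u ^ 2))
      = Q (b * cos u) * A u := by
    intro u
    rw [← hρsq u]
    simp only [hAdef]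
    have h1 : r (φ u) ≠ 0 := (hρpos u).ne'
    change r (φ u) * (a * Q (b * cos u) / (r (φ u)) ^ 2) = _
    field_simp
  have hBd : ∀ u, HasDerivAt B (A u * (a * Q (b * cos u) / (m ^ 2 - (m ^ 2 - a ^ 2) * cos u ^ 2))
      * sin (φ u)) u := by
    intro u
    have h1 : r (φ u) ≠ 0 := (hρpos u).ne'
    have h0 : HasDerivAt B ((b * cos u * r (φ u) - b * sin u *
        (Q (b * cos u) * (sin (φ u) * B u))) / r (φ u) ^ 2) u :=
      ((hasDerivAt_sin u).const_mul b).div (hρd u) h1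
    refine h0.congr_deriv ?_
    symm
    rw [← hρsq u]
    change A u * (a * Q (b * cos u) / (r (φ u)) ^ 2) * sin (φ u) = _
    simp only [hAdef, hBdef]
    have h3 := hsQ u
    have h4 : r (φ u) ^ 2 = a ^ 2 + (b * sin u) ^ 2 := hρsq' u
    have e1 : a / r (φ u) * (a * Q (b * cos u) / (r (φ u)) ^ 2) * sin (φ u)
        = a ^ 2 * (sin (φ u) * Q (b * cos u)) / r (φ u) ^ 3 := by
      field_simp
    rw [e1, h3]
    have e2 : (b * cos u * r (φ u) - b * sin u * (Q (b * cos u) * (sin (φ u) * (b * sin u / r (φ u)))))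
        / r (φ u) ^ 2 = (b * cos u * r (φ u) ^ 2 - (b * sin u) ^ 2 * (sin (φ u) * Q (b * cos u)))
          / r (φ u) ^ 3 := by
      field_simp
    rw [e2, h3]
    congr 1
    rw [h4]
    ring
  have hAd : ∀ u, HasDerivAt A (-(B u * sin (φ u) *
      (a * Q (b * cos u) / (m ^ 2 - (m ^ 2 - a ^ 2) * cos u ^ 2)))) u := by
    intro u
    have h1 : r (φ u) ≠ 0 := (hρpos u).ne'
    have h0 : HasDerivAt A ((0 * r (φ u) - a *
        (Q (b * cos u) * (sin (φ u) * B u))) / r (φ u) ^ 2) u :=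
      (hasDerivAt_const u a).div (hρd u) h1
    refine h0.congr_deriv ?_
    symm
    rw [← hρsq u]
    change -(B u * sin (φ u) * (a * Q (b * cos u) / (r (φ u)) ^ 2)) = _
    simp only [hBdef]
    field_simp
    ring
  have hPd : ∀ u, HasDerivAt (fun u => pos r z (φ u) (Θ u)) (Q (b * cos u) • vel B A φ Θ u) u :=
    fun u => pos_deriv (hρd u) (hzd u) (hΘd u) (hΘq u)
  have hVd := fun u => vel_deriv (hBd u) (hAd u) (hφd u) (hΘd u)
  have hQne : ∀ u, Q (b * cos u) ≠ 0 := fun u => (hu.Qpos _ (hxI' u)).ne'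
  have hc1 : ∀ t, HasDerivAt (fun t => pos r z (φ (U t)) (Θ (U t))) (vel B A φ Θ (U t)) t := by
    intro t
    have := (hPd (U t)).scomp t (hUd t)
    rw [smul_smul, inv_mul_cancel₀ (hQne _), one_smul] at this
    exact this
  have hc2 : ∀ t, HasDerivAt (fun t => vel B A φ Θ (U t))
      ((Q (b * cos (U t)))⁻¹ • ((B (U t) * (Q (b * cos (U t)) / (r (φ (U t)) * R (φ (U t))) *
        (b * -sin (U t))) - A (U t) * cos (φ (U t)) * (a * Q (b * cos (U t)) /
          (m ^ 2 - (m ^ 2 - a ^ 2) * cos (U t) ^ 2))) • nrm (φ (U t)) (Θ (U t)))) t := by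
    intro t
    exact (hVd (U t)).scomp t (hUd t)
  have hd1 : deriv (fun t => pos r z (φ (U t)) (Θ (U t))) = fun t => vel B A φ Θ (U t) :=
    funext fun t => (hc1 t).deriv
  have hd2 : deriv (fun t => vel B A φ Θ (U t)) = fun t => ((Q (b * cos (U t)))⁻¹ •
      ((B (U t) * (Q (b * cos (U t)) / (r (φ (U t)) * R (φ (U t))) *
        (b * -sin (U t))) - A (U t) * cos (φ (U t)) * (a * Q (b * cos (U t)) /
          (m ^ 2 - (m ^ 2 - a ^ 2) * cos (U t) ^ 2))) • nrm (φ (U t)) (Θ (U t)))) :=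
    funext fun t => (hc2 t).deriv
  have hφc : Continuous φ := continuous_iff_continuousAt.2 fun u => (hφd u).continuousAt
  have hΘcc : Continuous Θ := continuous_iff_continuousAt.2 fun u => (hΘd u).continuousAt
  have hBc : Continuous B := continuous_iff_continuousAt.2 fun u => (hBd u).continuousAt
  have hAc : Continuous A := continuous_iff_continuousAt.2 fun u => (hAd u).continuousAt
  have hρc : Continuous (fun u => r (φ u)) :=
    continuous_iff_continuousAt.2 fun u => (hρd u).continuousAt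
  have hRc : Continuous (fun u => R (φ u)) := h.smooth.continuous.comp hφc
  have hnc : Continuous (fun u => nrm (φ u) (Θ u)) :=
    g_vec_cont ((continuous_cos.comp hφc).mul (continuous_cos.comp hΘcc))
      ((continuous_cos.comp hφc).mul (continuous_sin.comp hΘcc)) (continuous_sin.comp hφc)
  have hKc : Continuous (fun u => (Q (b * cos u))⁻¹ •
      ((B u * (Q (b * cos u) / (r (φ u) * R (φ u)) *
        (b * -sin u)) - A u * cos (φ u) * (a * Q (b * cos u) /
          (m ^ 2 - (m ^ 2 - a ^ 2) * cos u ^ 2))) • nrm (φ u) (Θ u))) := by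
    have hk : Continuous (fun u => B u * (Q (b * cos u) / (r (φ u) * R (φ u)) *
        (b * -sin u)) - A u * cos (φ u) * (a * Q (b * cos u) /
          (m ^ 2 - (m ^ 2 - a ^ 2) * cos u ^ 2))) :=
      (hBc.mul ((hqc.div (hρc.mul hRc) (fun u => (mul_pos (hρpos u) (hRpos u)).ne')).mul
      (by fun_prop))).sub ((hAc.mul (continuous_cos.comp hφc)).mul hΘc)
    exact (hqc.inv₀ hQne).smul (hk.smul hnc)
  refine ⟨fun t => pos r z (φ (U t)) (Θ (U t)), U, Θ, ⟨?_, ?_, ?_, ?_⟩, hUm, hU0, ?_,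
    fun t => rfl, hΘd⟩
  · have h2 : (2 : WithTop ℕ∞) = 1 + 1 := by norm_num
    rw [h2, contDiff_succ_iff_deriv]
    refine ⟨fun t => (hc1 t).differentiableAt, by simp, ?_⟩
    rw [hd1, contDiff_one_iff_deriv]
    refine ⟨fun t => (hc2 t).differentiableAt, ?_⟩
    rw [hd2]
    exact hKc.comp hUc
  · intro t
    exact ⟨_, _, rfl⟩
  · intro t
    rw [hd1]
    refine vel_norm ?_
    simp only [hBdef, hAdef]
    rw [div_pow, div_pow, ← add_div]
    have h4 : r (φ (U t)) ^ 2 = a ^ 2 + (b * sin (U t)) ^ 2 := hρsq' (U t)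
    rw [div_eq_one_iff_eq (pow_pos (hρpos (U t)) 2).ne']
    linear_combination -h4
  · intro t v hv
    rw [hd1, hd2]
    have hcos : 0 ≤ cos (φ (U t)) := (cos_pos_of_mem_Ioo (hu.mem _ (hxI (U t)))).le
    have := (g_surf h hcos (Θ (U t))).2 v hv
    rw [inner_smul_left, inner_smul_left, this]
    simp
  · simp [hΘdef]


end J_geod

alias geod := J_geod.geod

end Pool.Agent.Helper10.ARM
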