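import Mathlib
import Pool.Agent.Helper10.ARM.Base
import Pool.Agent.Helper10.ARM.J_geod

open Set Filter Topology Real
open scoped RealInnerProductSpace ContDiff

noncomputable section

namespace Pool.Agent.Helper10.ARM

namespace J_rat


-- TARGET: prove this (put auxiliary lemmas between the ASSUMED END line and the theorem)

theorem rat {r z R : ℝ → ℝ} (h : IsMeridian r z R) {m : ℝ} (hm : 0 < m)
    (hr : ∀ φ ∈ Ioo (-(π / 2)) (π / 2), 0 < r φ) {Φ Q : ℝ → ℝ}
    (hu : IsUnif r R m Φ Q) (hc : AllClosed (surf r z)) {a : ℝ} (ha : 0 < a) (ham : a < m) :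
    ∃ q : ℚ, adv Q m a = 2 * π * q := by
  obtain ⟨c, U, Θ, hgeo, hUm, hU0, hΘ0, hcpos, hΘ'⟩ := geod h hm hr hu ha ham
  obtain ⟨T, hT0, hT⟩ := hc c hgeo
  set b := √(m ^ 2 - a ^ 2) with hb
  have hb2 : b ^ 2 = m ^ 2 - a ^ 2 := Real.sq_sqrt (by nlinarith)
  have hb0 : 0 < b := Real.sqrt_pos.2 (by nlinarith)
  have hbm : b < m := by
    rw [← abs_of_pos hb0, ← abs_of_pos hm, ← sq_lt_sq]; rw [hb2]; nlinarith
  have hmem : ∀ u, b * cos u ∈ Ioo (-m) m := by
    intro u
    have h1 := Real.neg_one_le_cos u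
    have h2 := Real.cos_le_one u
    constructor <;> nlinarith
  have hmemb : b ∈ Ioo (-m) m := ⟨by linarith, hbm⟩
  have hu1 : 0 < U T := by rw [← hU0]; exact hUm hT0
  set u1 := U T with hu1def
  have hpt : pos r z (Φ (b * cos u1)) (Θ u1) = pos r z (Φ b) 0 := by
    have h1 := hT 0
    rw [zero_add, hcpos T, hcpos 0, hU0, Real.cos_zero, mul_one, hΘ0] at h1
    exact h1
  have e0 : r (Φ (b * cos u1)) * cos (Θ u1) = r (Φ b) * cos 0 := by
    have := congrArg (fun v : E3 => v 0) hpt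
    simpa [pos] using this
  have e2 : z (Φ (b * cos u1)) = z (Φ b) := by
    have := congrArg (fun v : E3 => v 2) hpt
    simpa [pos] using this
  -- z strictly increasing
  have hz : StrictMonoOn z (Ioo (-(π / 2)) (π / 2)) := by
    apply strictMonoOn_of_deriv_pos (convex_Ioo _ _)
    · intro x _
      exact (h.dz x).continuousAt.continuousWithinAt
    · intro x hx
      rw [interior_Ioo] at hx
      rw [(h.dz x).deriv]
      exact mul_pos (h.pos x) (Real.cos_pos_of_mem_Ioo hx)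
  have e3 : Φ (b * cos u1) = Φ b := hz.injOn (hu.mem _ (hmem u1)) (hu.mem _ hmemb) e2
  have hΦ : StrictMonoOn Φ (Ioo (-m) m) := by
    apply strictMonoOn_of_deriv_pos (convex_Ioo _ _)
    · intro x hx
      exact (hu.Φder x hx).continuousAt.continuousWithinAt
    · intro x hx
      rw [interior_Ioo] at hx
      rw [(hu.Φder x hx).deriv]
      exact div_pos (hu.Qpos x ⟨hx.1.le, hx.2.le⟩) (mul_pos (hr _ (hu.mem x hx)) (h.pos _))
  have e4 : b * cos u1 = b := hΦ.injOn (hmem u1) hmemb e3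
  have e5 : cos u1 = 1 := by
    have : b * cos u1 = b * 1 := by rw [e4, mul_one]
    exact mul_left_cancel₀ hb0.ne' this
  obtain ⟨n, hn⟩ := (Real.cos_eq_one_iff u1).1 e5
  have hn0 : (0:ℝ) < n := by
    by_contra hcon
    push Not at hcon
    have : (n:ℝ) * (2 * π) ≤ 0 := mul_nonpos_of_nonpos_of_nonneg hcon (by positivity)
    linarith
  have hrb : 0 < r (Φ b) := hr _ (hu.mem _ hmemb)
  have e6 : cos (Θ u1) = 1 := by
    rw [e3, Real.cos_zero] at e0
    exact mul_left_cancel₀ hrb.ne' e0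
  obtain ⟨j, hj⟩ := (Real.cos_eq_one_iff (Θ u1)).1 e6
  -- the integrand
  set g : ℝ → ℝ := fun u => a * Q (b * cos u) / (m ^ 2 - (m ^ 2 - a ^ 2) * cos u ^ 2) with hg
  have hgc : Continuous g := by
    have h1 : Continuous (fun u => Q (b * cos u)) := by
      rw [← continuousOn_univ]
      exact hu.Qcont.comp (by fun_prop) (fun u _ => ⟨(hmem u).1.le, (hmem u).2.le⟩)
    refine Continuous.div (continuous_const.mul h1) (by fun_prop) (fun u => ?_)
    have h2 : cos u ^ 2 ≤ 1 := Real.cos_sq_le_one u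
    have h3 : 0 < m ^ 2 - (m ^ 2 - a ^ 2) * cos u ^ 2 := by
      have : 0 < m ^ 2 - a ^ 2 := by nlinarith
      nlinarith
    exact h3.ne'
  have hgi : ∀ t₁ t₂, IntervalIntegrable g MeasureTheory.volume t₁ t₂ := fun t₁ t₂ => hgc.intervalIntegrable _ _
  have hper : Function.Periodic g (2 * π) := by
    intro u
    simp only [hg, Real.cos_add_two_pi]
  have hI : Θ u1 = ∫ u in (0:ℝ)..u1, g u := by
    have := intervalIntegral.integral_eq_sub_of_hasDerivAt (a := 0) (b := u1) (f := Θ) (f' := g) (fun u _ => hΘ' u) (hgi _ _)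
    rw [this, hΘ0, sub_zero]
  have hadv : adv Q m a = ∫ u in (0:ℝ)..(0 + 2 * π), g u := by
    unfold adv
    rw [zero_add]
  have hz' := hper.intervalIntegral_add_zsmul_eq n 0 hgi
  rw [← hadv] at hz'
  have hun : (0:ℝ) + n • (2 * π) = u1 := by rw [zero_add, zsmul_eq_mul]; exact hn
  rw [hun, ← hI, ← hj, zsmul_eq_mul] at hz'
  refine ⟨(j:ℚ) / n, ?_⟩
  push_cast
  field_simp
  linarith


end J_rat

alias rat := J_rat.rat

end Pool.Agent.Helper10.ARM
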