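import Mathlib
import Pool.Agent.Helper10.ARM.Base

open Set Filter Topology Real
open scoped RealInnerProductSpace ContDiff

noncomputable section

namespace Pool.Agent.Helper10.ARM

namespace J_round


-- TARGET: prove this (put auxiliary lemmas between the ASSUMED END line and the theorem)

theorem round_mem_iff (p : E3) (z0 m : ℝ) (hm : 0 < m) :
    p ∈ Metric.sphere (!₂[0, 0, z0] : E3) m ↔ p 0 ^ 2 + p 1 ^ 2 + (p 2 - z0) ^ 2 = m ^ 2 := by
  rw [Metric.mem_sphere, EuclideanSpace.dist_eq, Fin.sum_univ_three]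
  simp only [Real.dist_eq, sq_abs, Matrix.cons_val_zero, Matrix.cons_val_one,
    Matrix.cons_val]
  rw [Real.sqrt_eq_iff_mul_self_eq (by positivity) hm.le]
  constructor
  · intro h
    nlinarith [h]
  · intro h
    nlinarith [h]

theorem round {r z R : ℝ → ℝ} (h : IsMeridian r z R) {m : ℝ} (hR : ∀ φ, R φ = m) :
    ∃ q : E3, surf r z = Metric.sphere q m := by
  have hm : 0 < m := by
    have := h.pos 0
    rwa [hR 0] at this
  have hr0 : r (π / 2) = 0 := by
    have := h.symr (π / 2)
    rw [show π - π / 2 = π / 2 by ring] at this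
    linarith
  have hr : ∀ φ, r φ = m * cos φ := by
    have hd : ∀ φ, HasDerivAt (fun φ => r φ - m * cos φ) 0 φ := by
      intro φ
      have h1 := (h.dr φ).sub ((hasDerivAt_cos φ).const_mul m)
      rw [hR φ, show -(m * sin φ) - m * -sin φ = 0 by ring] at h1
      exact h1
    intro φ
    have hc := is_const_of_deriv_eq_zero (f := fun φ => r φ - m * cos φ)
      (fun x => (hd x).differentiableAt) (fun x => (hd x).deriv) φ (π / 2)
    simp only [hr0, cos_pi_div_two] at hc
    linarith
  have hz : ∀ φ, z φ = z 0 + m * sin φ := by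
    have hd : ∀ φ, HasDerivAt (fun φ => z φ - m * sin φ) 0 φ := by
      intro φ
      have h1 := (h.dz φ).sub ((hasDerivAt_sin φ).const_mul m)
      rw [hR φ, sub_self] at h1
      exact h1
    intro φ
    have hc := is_const_of_deriv_eq_zero (f := fun φ => z φ - m * sin φ)
      (fun x => (hd x).differentiableAt) (fun x => (hd x).deriv) φ 0
    simp only [sin_zero] at hc
    linarith
  refine ⟨!₂[0, 0, z 0], ?_⟩
  ext p
  rw [round_mem_iff p (z 0) m hm]
  constructor
  · rintro ⟨φ, θ, rfl⟩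
    simp only [pos, PiLp.toLp_apply, Matrix.cons_val_zero, Matrix.cons_val_one,
      Matrix.cons_val]
    rw [hr φ, hz φ]
    have e1 := sin_sq_add_cos_sq φ
    have e2 := sin_sq_add_cos_sq θ
    have : (m * cos φ * cos θ) ^ 2 + (m * cos φ * sin θ) ^ 2 + (z 0 + m * sin φ - z 0) ^ 2
      = m ^ 2 * (cos φ ^ 2 * (sin θ ^ 2 + cos θ ^ 2) + sin φ ^ 2) := by ring
    rw [this, e2, mul_one]
    have : cos φ ^ 2 + sin φ ^ 2 = 1 := by linarith
    rw [this, mul_one]
  · intro hp
    set s := (p 2 - z 0) / m with hs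
    have hsm : p 2 - z 0 = m * s := by
      rw [hs]; field_simp
    have hs2 : s ^ 2 ≤ 1 := by
      rw [hs, div_pow, div_le_one (by positivity)]
      nlinarith [sq_nonneg (p 0), sq_nonneg (p 1)]
    have hs1 : -1 ≤ s ∧ s ≤ 1 := abs_le.1 ((sq_le_one_iff_abs_le_one s).1 hs2)
    have hcos0 : 0 ≤ cos (arcsin s) := cos_arcsin_nonneg s
    have hsin : sin (arcsin s) = s := sin_arcsin hs1.1 hs1.2
    have hsc := sin_sq_add_cos_sq (arcsin s)
    rw [hsin] at hsc
    have hnorm : ‖(⟨p 0, p 1⟩ : ℂ)‖ = m * cos (arcsin s) := by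
      rw [← sq_eq_sq₀ (norm_nonneg _) (by positivity), ← Complex.normSq_eq_norm_sq,
        Complex.normSq_apply, mul_pow]
      simp only
      have : cos (arcsin s) ^ 2 = 1 - s ^ 2 := by linarith
      rw [this]
      rw [hsm] at hp
      nlinarith [hp]
    have a1 := Complex.norm_mul_cos_arg (⟨p 0, p 1⟩ : ℂ)
    have a2 := Complex.norm_mul_sin_arg (⟨p 0, p 1⟩ : ℂ)
    rw [hnorm] at a1 a2
    refine ⟨arcsin s, Complex.arg ⟨p 0, p 1⟩, ?_⟩
    ext i
    fin_cases i
    · simp only [pos, PiLp.toLp_apply]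
      show p 0 = r (arcsin s) * cos (Complex.arg ⟨p 0, p 1⟩)
      rw [hr, a1]
    · show p 1 = r (arcsin s) * sin (Complex.arg ⟨p 0, p 1⟩)
      rw [hr, a2]
    · show p 2 = z (arcsin s)
      rw [hz, hsin]
      linarith


end J_round

alias round := J_round.round

end Pool.Agent.Helper10.ARM
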