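import Mathlib
import Pool.Agent.Helper10.ARM.Base

open Set Filter Topology Real
open scoped RealInnerProductSpace ContDiff

noncomputable section

namespace Pool.Agent.Helper10.ARM

namespace J_subst


-- TARGET: prove this (put auxiliary lemmas between the ASSUMED END line and the theorem)

theorem subst {r z R : ℝ → ℝ} (h : IsMeridian r z R) {m : ℝ} (hm : 0 < m)
    (hr : ∀ φ ∈ Ioo (-(π / 2)) (π / 2), 0 < r φ) {Φ Q : ℝ → ℝ}
    (hu : IsUnif r R m Φ Q) (hs : ∀ ψ ∈ Ioo (-(π / 2)) (π / 2), ∃ x ∈ Ioo (-m) m, Φ x = ψ) :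
    (∫ x in (-m)..m, Q x / √(m ^ 2 - x ^ 2)) = (∫ φ in (-(π / 2))..(π / 2), R φ) ∧
    (∫ x in (-m)..m, Q x) = ∫ φ in (-(π / 2))..(π / 2), r φ * R φ := by
  have hQ : ∀ x ∈ Ioo (-m) m, 0 < Q x := fun x hx => hu.Qpos x (Ioo_subset_Icc_self hx)
  have hrp : ∀ x ∈ Ioo (-m) m, 0 < r (Φ x) := fun x hx => hr _ (hu.mem x hx)
  have hder : ∀ x ∈ Ioo (-m) m, 0 < Q x / (r (Φ x) * R (Φ x)) := fun x hx =>
    div_pos (hQ x hx) (mul_pos (hrp x hx) (h.pos _))
  have hinj : InjOn Φ (Ioo (-m) m) := by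
    have hmono : StrictMonoOn Φ (Ioo (-m) m) := by
      apply strictMonoOn_of_deriv_pos (convex_Ioo _ _)
      · intro x hx
        exact (hu.Φder x hx).continuousAt.continuousWithinAt
      · intro x hx
        rw [interior_Ioo] at hx
        rw [(hu.Φder x hx).deriv]
        exact hder x hx
    exact hmono.injOn
  have himg : Φ '' Ioo (-m) m = Ioo (-(π / 2)) (π / 2) := by
    apply Subset.antisymm
    · rintro _ ⟨x, hx, rfl⟩
      exact hu.mem x hx
    · intro ψ hψ
      obtain ⟨x, hx, e⟩ := hs ψ hψ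
      exact ⟨x, hx, e⟩
  have key : ∀ g : ℝ → ℝ, (∫ φ in (-(π / 2))..(π / 2), g φ) =
      ∫ x in Ioo (-m) m, |Q x / (r (Φ x) * R (Φ x))| • g (Φ x) := by
    intro g
    rw [intervalIntegral.integral_of_le (by linarith [Real.pi_pos]),
      MeasureTheory.integral_Ioc_eq_integral_Ioo, ← himg]
    exact MeasureTheory.integral_image_eq_integral_abs_deriv_smul measurableSet_Ioo
      (fun x hx => (hu.Φder x hx).hasDerivWithinAt) hinj g
  have hsq : ∀ x ∈ Ioo (-m) m, √(m ^ 2 - x ^ 2) = r (Φ x) := by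
    intro x hx
    rw [← hu.rsq x hx, Real.sqrt_sq (hrp x hx).le]
  constructor
  · rw [key, intervalIntegral.integral_of_le (by linarith),
      MeasureTheory.integral_Ioc_eq_integral_Ioo]
    apply MeasureTheory.setIntegral_congr_fun measurableSet_Ioo
    intro x hx
    show Q x / √(m ^ 2 - x ^ 2) = |Q x / (r (Φ x) * R (Φ x))| • R (Φ x)
    rw [hsq x hx, abs_of_pos (hder x hx), smul_eq_mul]
    have h1 := (hrp x hx).ne'
    have h2 := (h.pos (Φ x)).ne'
    field_simp
  · rw [key, intervalIntegral.integral_of_le (by linarith),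
      MeasureTheory.integral_Ioc_eq_integral_Ioo]
    apply MeasureTheory.setIntegral_congr_fun measurableSet_Ioo
    intro x hx
    show Q x = |Q x / (r (Φ x) * R (Φ x))| • (r (Φ x) * R (Φ x))
    rw [abs_of_pos (hder x hx), smul_eq_mul]
    have h1 := (hrp x hx).ne'
    have h2 := (h.pos (Φ x)).ne'
    field_simp


end J_subst

alias subst := J_subst.subst

end Pool.Agent.Helper10.ARM
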