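import Mathlib
import Pool.Agent.Helper10.ARM.J_g_width
import Pool.Agent.Helper10.ARM.J_morse
import Pool.Agent.Helper10.ARM.J_rat
import Pool.Agent.Helper10.ARM.J_adv_const
import Pool.Agent.Helper10.ARM.J_int1
import Pool.Agent.Helper10.ARM.J_int2
import Pool.Agent.Helper10.ARM.J_subst
import Pool.Agent.Helper10.ARM.J_final_ineq
import Pool.Agent.Helper10.ARM.J_round

open Set Filter Topology Real
open scoped RealInnerProductSpace ContDiff

noncomputable section

namespace Pool.Agent.Helper10.ARM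

theorem r_half {r z R : ℝ → ℝ} (h : IsMeridian r z R) : r (π / 2) = 0 ∧ r (-(π / 2)) = 0 := by
  have h1 := h.symr (π / 2)
  have h2 : π - π / 2 = π / 2 := by ring
  rw [h2] at h1
  have h3 := h.symr (-(π / 2))
  have h4 : π - -(π / 2) = -(π / 2) + 2 * π := by ring
  rw [h4, h.perr] at h3
  constructor <;> linarith

theorem r_pos {r z R : ℝ → ℝ} (h : IsMeridian r z R) :
    ∀ φ ∈ Ioo (-(π / 2)) (π / 2), 0 < r φ := by
  intro φ hφ
  have hd : Differentiable ℝ r := fun x => (h.dr x).differentiableAt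
  have hpi := Real.pi_pos
  rcases le_total 0 φ with h0 | h0
  · have hm : StrictAntiOn r (Icc 0 (π / 2)) := by
      apply strictAntiOn_of_deriv_neg (convex_Icc _ _) hd.continuous.continuousOn
      intro x hx
      rw [interior_Icc] at hx
      rw [(h.dr x).deriv]
      have := Real.sin_pos_of_pos_of_lt_pi hx.1 (by linarith [hx.2])
      have := h.pos x
      nlinarith
    have := hm ⟨h0, hφ.2.le⟩ ⟨by linarith, le_refl _⟩ hφ.2
    rw [(r_half h).1] at this
    exact this
  · have hm : StrictMonoOn r (Icc (-(π / 2)) 0) := by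
      apply strictMonoOn_of_deriv_pos (convex_Icc _ _) hd.continuous.continuousOn
      intro x hx
      rw [interior_Icc] at hx
      rw [(h.dr x).deriv]
      have := Real.sin_neg_of_neg_of_neg_pi_lt hx.2 (by linarith [hx.1])
      have := h.pos x
      nlinarith
    have := hm ⟨le_refl _, by linarith⟩ ⟨hφ.1.le, h0⟩ hφ.1
    rw [(r_half h).2] at this
    exact this

theorem int_R {r z R : ℝ → ℝ} (h : IsMeridian r z R) {m : ℝ}
    (h2 : ∀ φ, R φ + R (-φ) = 2 * m) : ∫ φ in (-(π / 2))..(π / 2), R φ = π * m := by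
  have hc : Continuous R := h.smooth.continuous
  have e1 : ∫ φ in (-(π / 2))..(π / 2), R (-φ) = ∫ φ in (-(π / 2))..(π / 2), R φ := by
    rw [intervalIntegral.integral_comp_neg]
    simp
  have e2 : (∫ φ in (-(π / 2))..(π / 2), R φ) + ∫ φ in (-(π / 2))..(π / 2), R (-φ) =
      ∫ φ in (-(π / 2))..(π / 2), (2 * m) := by
    have hc2 : Continuous fun φ => R (-φ) := hc.comp continuous_neg
    rw [← intervalIntegral.integral_add (hc.intervalIntegrable _ _) (hc2.intervalIntegrable _ _)]
    exact intervalIntegral.integral_congr fun φ _ => h2 φ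
  rw [e1, intervalIntegral.integral_const, smul_eq_mul] at e2
  linarith

theorem main {r z R : ℝ → ℝ} (h : IsMeridian r z R) {w : ℝ} (hw : HasWidth (surf r z) w)
    (hc : AllClosed (surf r z)) : ∃ q : E3, surf r z = Metric.sphere q (w / 2) := by
  obtain ⟨h1, h2, hw0⟩ := g_width h hw
  have hm : 0 < w / 2 := by linarith
  have h1' : ∀ φ, r φ + r (-φ) = 2 * (w / 2) * cos φ := fun φ => by rw [h1]; ring
  have h2' : ∀ φ, R φ + R (-φ) = 2 * (w / 2) := fun φ => by rw [h2]; ring
  have hr := r_pos h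
  obtain ⟨Φ, Q, hu, hs⟩ := morse h hm h1'
  obtain ⟨C, hC⟩ := adv_const hm hu.Qcont fun a ha => rat h hm hr hu hc ha.1 ha.2
  have i1 := int1 hm hu.Qcont hu.Qpos hC
  have i2 := int2 hm hu.Qcont hu.Qpos hC
  obtain ⟨s1, s2⟩ := subst h hm hr hu hs
  rw [s1, int_R h h2'] at i1
  rw [s2] at i2
  have hC2 : C = 2 * π := by
    have : C * (w / 2) = 2 * π * (w / 2) := by linarith
    exact mul_right_cancel₀ hm.ne' this
  rw [hC2] at i2
  have h3 : ∫ φ in (-(π / 2))..(π / 2), r φ * R φ = 2 * (w / 2) ^ 2 := by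
    have hpi := Real.pi_pos
    have : π / 2 * (∫ φ in (-(π / 2))..(π / 2), r φ * R φ) = π / 2 * (2 * (w / 2) ^ 2) := by
      rw [← i2]; ring
    exact mul_left_cancel₀ (by positivity) this
  exact round h (final_ineq h hm h1' h2' h3)

end Pool.Agent.Helper10.ARM
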